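import Pool.Agent.Lib.MP_6805b2_co.FL.Few

/-!
# The number of the classes without a common point
-/

namespace Pool.Agent.Lib.MP_6805b2_co.FL

open Finset

/-- The count of `few` for an arbitrary set `L` of points. -/
theorem cnt (k l q : ℕ) (hk : 2 ≤ k) (hl3 : (k + 2) ^ 2 * (k + 1) ≤ l) (hkl : k + 2 ≤ l)
    (L T B : Finset ℕ) (hL : L.card = l)
    (F : ℕ → Finset (Finset ℕ)) (ctr : ℕ → ℕ)
    (hF : ∀ c ∈ B, ∀ X ∈ F c, X.card = k + 2)
    (hT : ∀ c ∈ T, ctr c ∈ L ∧ ∀ X ∈ F c, ctr c ∈ X)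
    (hI : ∀ c ∈ B, ∀ X ∈ F c, ∀ Y ∈ F c, ¬ Disjoint X Y)
    (hns : ∀ c ∈ B, ∀ x, ∃ X ∈ F c, x ∉ X)
    (hcov : ∀ X, X ⊆ L → X.card = k + 2 → (q - 1) * (k + 2) + 1 ≤
      (T.filter (fun c => X ∈ F c)).card + (B.filter (fun c => X ∈ F c)).card) :
    ((q - 1) * (k + 2) + 1) * (l * (l - 1)) ≤
      (k + 2) * T.card * (l - 1) + (k + 2) ^ 2 * (k + 1) * B.card := by
  classical
  refine ar1 k l hkl _ _ _ ?_
  have h3 : ∑ _X ∈ L.powersetCard (k + 2), ((q - 1) * (k + 2) + 1) ≤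
      ∑ X ∈ L.powersetCard (k + 2),
        ((T.filter (fun c => X ∈ F c)).card + (B.filter (fun c => X ∈ F c)).card) :=
    sum_le_sum fun X hX => hcov X (mem_powersetCard.1 hX).1 (mem_powersetCard.1 hX).2
  rw [sum_const, card_powersetCard, hL, smul_eq_mul, mul_comm, sum_add_distrib] at h3
  have hsw : ∀ D : Finset ℕ, ∑ X ∈ L.powersetCard (k + 2), (D.filter (fun c => X ∈ F c)).card =
      ∑ c ∈ D, ((L.powersetCard (k + 2)).filter (fun X => X ∈ F c)).card := by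
    intro D
    simp only [card_filter]
    exact sum_comm
  rw [hsw T, hsw B] at h3
  refine h3.trans (Nat.add_le_add ?_ ?_)
  · refine (sum_le_card_nsmul T _ ((l - 1).choose (k + 1)) fun c hc => ?_).trans
      (le_of_eq (smul_eq_mul _ _))
    rw [← hL]
    refine FR.star L k _ (fun X hX => mem_powersetCard.1 (mem_filter.1 hX).1) (ctr c) (hT c hc).1 ?_
    exact fun X hX => (hT c hc).2 X (mem_filter.1 hX).2
  · refine (sum_le_card_nsmul B _ ((k + 2) * (l - 2).choose k) fun c hc => ?_).trans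
      (le_of_eq (smul_eq_mul _ _))
    set Fl := (L.powersetCard (k + 2)).filter (fun X => X ∈ F c) with hFl
    have hFlL : ∀ X ∈ Fl, X ⊆ L ∧ X.card = k + 2 := fun X hX =>
      mem_powersetCard.1 (mem_filter.1 hX).1
    have hFlF : ∀ X ∈ Fl, X ∈ F c := fun X hX => (mem_filter.1 hX).2
    by_cases hc2 : ∀ x ∈ L, ∃ X ∈ Fl, x ∉ X
    · obtain ⟨j, rfl⟩ : ∃ j, k = j + 1 := ⟨k - 1, by omega⟩
      rw [← hL] at hl3 ⊢
      exact hm L j (by omega) Fl hFlL hl3 (fun X hX Y hY => hI c hc X (hFlF X hX) Y (hFlF Y hY)) hc2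
    · push Not at hc2
      obtain ⟨x, hx, hxF⟩ := hc2
      obtain ⟨U, hU, hxU⟩ := hns c hc x
      rw [← hL]
      exact small L k Fl hFlL x hx hxF U (hF c hc U hU).le hxU
        (fun X hX => hI c hc X (hFlF X hX) U hU)

/-- The arithmetic: `b + e ≤ u` for `u = n ^ 2 (n - 1)`. -/
theorem ar3 (k q u t b e : ℕ) (hk : 1 ≤ k) (hq : 1 ≤ q) (hu : u = (k + 2) ^ 2 * (k + 1))
    (h1 : t + b + e + 2 * (k + 2) ≤ q * u + 1)
    (h2 : ((q - 1) * (k + 2) + 1) * (u * (u - 1)) ≤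
      (k + 2) * t * (u - 1) + (k + 2) ^ 2 * (k + 1) * b) : b + e ≤ u := by
  by_contra hcon
  rw [not_le] at hcon
  obtain ⟨p, rfl⟩ : ∃ p, q = p + 1 := ⟨q - 1, by omega⟩
  have hu2 : 2 ≤ u := by
    rw [hu]
    nlinarith [Nat.zero_le (k ^ 2), Nat.zero_le (k ^ 3)]
  obtain ⟨v, rfl⟩ : ∃ v, u = v + 1 := ⟨u - 1, by omega⟩
  rw [Nat.add_sub_cancel, Nat.add_sub_cancel, ← hu] at h2
  have h3 : (k + 2) * v * (t + b + e + 2 * (k + 2)) ≤ (k + 2) * v * ((p + 1) * (v + 1) + 1) :=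
    Nat.mul_le_mul_left _ h1
  have h4 : (v + 1) * b ≤ (v + 1) * (b + e) := Nat.mul_le_mul_left _ (by omega)
  obtain ⟨s, hs⟩ : ∃ s, b + e = v + 1 + 1 + s := ⟨b + e - (v + 2), by omega⟩
  have h5 : t + b + e + 2 * (k + 2) = t + (v + 1 + 1 + s) + 2 * (k + 2) := by omega
  rw [h5] at h3
  rw [hs] at h4
  have h6 : (p * (k + 2) + 1) * ((v + 1) * v) + (k + 2) * v * (t + (v + 1 + 1 + s) + 2 * (k + 2)) ≤
      (k + 2) * t * v + (v + 1) * (v + 1 + 1 + s) + (k + 2) * v * ((p + 1) * (v + 1) + 1) := by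
    have := h2.trans (Nat.add_le_add_left h4 _)
    exact Nat.add_le_add this h3
  have hv : 1 ≤ v := by omega
  clear hcon h1 h2 h3 h4 h5 hs hu
  obtain ⟨w, rfl⟩ : ∃ w, v = w + 1 := ⟨v - 1, by omega⟩
  obtain ⟨j, rfl⟩ : ∃ j, k = j + 1 := ⟨k - 1, by omega⟩
  have h8 : (p * (j + 1 + 2) + 1) * ((w + 1 + 1) * (w + 1)) +
      (j + 1 + 2) * (w + 1) * (t + (w + 1 + 1 + 1 + s) + 2 * (j + 1 + 2)) =
      ((j + 1 + 2) * t * (w + 1) + (w + 1 + 1) * (w + 1 + 1 + 1 + s) +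
        (j + 1 + 2) * (w + 1) * ((p + 1) * (w + 1 + 1) + 1)) +
      (s * ((j + 2) * w + j + 1) + 2 * w * (j + 2) * (j + 4) + 2 * j ^ 2 + 12 * j) + 14 := by
    ring
  rw [h8] at h6
  have h9 : 0 ≤ s * ((j + 2) * w + j + 1) + 2 * w * (j + 2) * (j + 4) + 2 * j ^ 2 + 12 * j :=
    Nat.zero_le _
  linarith

end Pool.Agent.Lib.MP_6805b2_co.FL
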