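import Pool.Agent.Lib.MP_6805b2_co.FR.Core

/-!
# Limit systems

`Lim n l q`: on a set `L` of `l` points there are at most `q l - 2 n + 1` intersecting families such that
every subset `Y` of `L` with at most `n` points is a member of at least `q |Y| - n + 1` of them.
-/

namespace Pool.Agent.Lib.MP_6805b2_co.FL

open Finset

/-- A limit system for the parameters `n, l, q`. -/
def Lim (n l q : ℕ) : Prop := ∃ (L C : Finset ℕ) (G : ℕ → Finset (Finset ℕ)),
  L.card = l ∧ C.card + 2 * n ≤ q * l + 1 ∧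
  (∀ c ∈ C, ∀ X ∈ G c, ∀ Y ∈ G c, ¬ Disjoint X Y) ∧
  ∀ Y, Y ⊆ L → Y.card ≤ n → q * Y.card + 1 ≤ n + (C.filter (fun c => Y ∈ G c)).card

end Pool.Agent.Lib.MP_6805b2_co.FL
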