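import Pool.Agent.Lib.MP_6805b2_co.FR.Red
import Pool.Agent.Lib.MP_6805b2_co.FL.Def

/-!
# Limit systems with many points descend
-/

namespace Pool.Agent.Lib.MP_6805b2_co.FL

open Finset

private theorem ar1 (k m : ℕ) (hm : k + 2 ≤ m) (K τ β : ℕ)
    (h : K * m.choose (k + 2) ≤ τ * (m - 1).choose (k + 1) +
      β * (2 * (k + 2) * (m - 2).choose k)) :
    K * (m * (m - 1)) ≤ (k + 2) * τ * (m - 1) + 2 * (k + 2) ^ 2 * (k + 1) * β := by
  obtain ⟨p, rfl⟩ : ∃ p, m = p + 2 := ⟨m - 2, by omega⟩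
  have e1 : (p + 1) * p.choose k = (p + 1).choose (k + 1) * (k + 1) := Nat.add_one_mul_choose_eq p k
  have e2 : (p + 2) * (p + 1).choose (k + 1) = (p + 2).choose (k + 2) * (k + 2) :=
    Nat.add_one_mul_choose_eq (p + 1) (k + 1)
  have ht : 0 < p.choose k := Nat.choose_pos (by omega)
  simp only [Nat.add_sub_cancel, show p + 2 - 1 = p + 1 from rfl] at h ⊢
  refine Nat.le_of_mul_le_mul_right ?_ ht
  have h1 := Nat.mul_le_mul_right ((k + 2) * (k + 1)) h
  calc K * ((p + 2) * (p + 1)) * p.choose k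
      = K * (p + 2) * ((p + 1) * p.choose k) := by ring
    _ = K * (k + 1) * ((p + 2) * (p + 1).choose (k + 1)) := by rw [e1]; ring
    _ = K * (p + 2).choose (k + 2) * ((k + 2) * (k + 1)) := by rw [e2]; ring
    _ ≤ _ := h1
    _ = (k + 2) * τ * ((p + 1).choose (k + 1) * (k + 1)) +
        2 * (k + 2) ^ 2 * (k + 1) * β * p.choose k := by ring
    _ = ((k + 2) * τ * (p + 1) + 2 * (k + 2) ^ 2 * (k + 1) * β) * p.choose k := by rw [← e1]; ring

/-- A family of `(k + 2)`-sets through `x` all meeting a small set `T ∌ x`. -/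
private theorem small (V : Finset ℕ) (k : ℕ) (G : Finset (Finset ℕ))
    (hG : ∀ X ∈ G, X ⊆ V ∧ X.card = k + 2) (x : ℕ) (hx : x ∈ V) (hxG : ∀ X ∈ G, x ∈ X)
    (T : Finset ℕ) (hTV : T ⊆ V) (hTc : T.card ≤ k + 2) (hxT : x ∉ T)
    (hTG : ∀ X ∈ G, ¬ Disjoint X T) : G.card ≤ 2 * (k + 2) * (V.card - 2).choose k := by
  have h1 : G ⊆ T.biUnion fun y =>
      (V.powersetCard (k + 2)).filter (fun X => x ∈ X ∧ y ∈ X) := by
    intro X hX
    obtain ⟨y, hy1, hy2⟩ := Finset.not_disjoint_iff.1 (hTG X hX)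
    exact mem_biUnion.2 ⟨y, hy2, mem_filter.2 ⟨mem_powersetCard.2 (hG X hX), hxG X hX, hy1⟩⟩
  refine (card_le_card h1).trans (card_biUnion_le.trans ?_)
  refine (sum_le_sum fun y hy => FR.two V x y hx (fun h => hxT (h ▸ hy)) (hTV hy) k).trans ?_
  rw [sum_const, smul_eq_mul]
  exact Nat.mul_le_mul_right _ (by omega)

theorem desc (k l q : ℕ) (hk : 1 ≤ k) (hq : 1 ≤ q) (hl : 2 * (k + 2) ^ 2 * (k + 1) < l)
    (h : Lim (k + 2) l q) : Lim (k + 2) (l - 1) q := by
  classical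
  obtain ⟨L, C, G0, hL, hC, hI0, hD0⟩ := h
  set G : ℕ → Finset (Finset ℕ) := fun c => (G0 c).filter (fun Y => Y ⊆ L ∧ Y.card ≤ k + 2) with hG
  have hGm : ∀ c Y, Y ∈ G c ↔ Y ∈ G0 c ∧ Y ⊆ L ∧ Y.card ≤ k + 2 := fun c Y => mem_filter
  have hI : ∀ c ∈ C, ∀ X ∈ G c, ∀ Y ∈ G c, ¬ Disjoint X Y := fun c hc X hX Y hY =>
    hI0 c hc X ((hGm c X).1 hX).1 Y ((hGm c Y).1 hY).1
  have hD : ∀ Y, Y ⊆ L → Y.card ≤ k + 2 →
      q * Y.card + 1 ≤ (k + 2) + (C.filter (fun c => Y ∈ G c)).card := by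
    intro Y hY hYn
    refine (hD0 Y hY hYn).trans (Nat.add_le_add_left (card_le_card fun c hc => ?_) _)
    obtain ⟨h1, h2⟩ := mem_filter.1 hc
    exact mem_filter.2 ⟨h1, (hGm c Y).2 ⟨h2, hY, hYn⟩⟩
  obtain ⟨ctr, hctr⟩ := FR.exists_ctr L G
  set T := C.filter (fun c => ∃ x ∈ L, ∀ X ∈ G c, x ∈ X) with hT
  set B := C.filter (fun c => ¬ ∃ x ∈ L, ∀ X ∈ G c, x ∈ X) with hB
  have hTB : T.card + B.card = C.card := card_filter_add_card_filter_not _
  have hTC : ∀ c ∈ T, c ∈ C ∧ ctr c ∈ L ∧ ∀ X ∈ G c, ctr c ∈ X := by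
    intro c hc
    obtain ⟨h1, h2⟩ := mem_filter.1 hc
    exact ⟨h1, hctr c h2⟩
  have hBC : ∀ c ∈ B, c ∈ C ∧ ∀ x ∈ L, ∃ X ∈ G c, x ∉ X := by
    intro c hc
    obtain ⟨h1, h2⟩ := mem_filter.1 hc
    refine ⟨h1, fun x hx => ?_⟩
    by_contra hcon
    push Not at hcon
    exact h2 ⟨x, hx, hcon⟩
  let A : ℕ → Finset ℕ := fun x => T.filter (fun c => ctr c = x)
  have hAC : ∀ x, A x ⊆ C := fun x c hc => (hTC c (mem_filter.1 hc).1).1
  have hAx : ∀ x, ∀ c ∈ A x, ∀ X ∈ G c, x ∈ X := by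
    intro x c hc X hX
    obtain ⟨h1, h2⟩ := mem_filter.1 hc
    rw [← h2]
    exact (hTC c h1).2.2 X hX
  by_cases hA : ∃ x ∈ L, q ≤ (A x).card
  · obtain ⟨x, hx, hqx⟩ := hA
    refine ⟨L.erase x, C \ A x, G, by rw [card_erase_of_mem hx, hL], ?_, ?_, ?_⟩
    · rw [card_sdiff_of_subset (hAC x)]
      have h1 := card_le_card (hAC x)
      obtain ⟨p, rfl⟩ : ∃ p, l = p + 1 := ⟨l - 1, by omega⟩
      rw [Nat.add_sub_cancel]
      have e : q * (p + 1) = q * p + q := by ring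
      rw [e] at hC
      omega
    · exact fun c hc => hI c (mem_sdiff.1 hc).1
    · intro Y hY hYn
      refine (hD Y (hY.trans (erase_subset _ _)) hYn).trans
        (Nat.add_le_add_left (card_le_card fun c hc => ?_) _)
      obtain ⟨h1, h2⟩ := mem_filter.1 hc
      refine mem_filter.2 ⟨mem_sdiff.2 ⟨h1, fun h3 => ?_⟩, h2⟩
      exact notMem_erase x L (hY (hAx x c h3 Y h2))
  · exfalso
    push Not at hA
    -- the `(k + 2)`-sets
    let F : ℕ → Finset (Finset ℕ) := fun c => (G c).filter (fun X => X.card = k + 2)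
    have hFG : ∀ c, ∀ X ∈ F c, X ∈ G c := fun c X hX => (mem_filter.1 hX).1
    have hS : FR.Sy (k + 2) L C F ((q - 1) * (k + 2) + 1) := by
      refine ⟨fun c hc X hX => ?_, fun c hc X hX Y hY => hI c hc X (hFG c X hX) Y (hFG c Y hY), ?_⟩
      · exact ⟨((hGm c X).1 (hFG c X hX)).2.1, (mem_filter.1 hX).2⟩
      · intro X hX hXn
        have h1 := hD X hX hXn.le
        rw [hXn] at h1
        have h2 : (C.filter (fun c => X ∈ G c)).card ≤ (C.filter (fun c => X ∈ F c)).card :=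
          card_le_card fun c hc => mem_filter.2 ⟨(mem_filter.1 hc).1,
            mem_filter.2 ⟨(mem_filter.1 hc).2, hXn⟩⟩
        obtain ⟨p, rfl⟩ : ∃ p, q = p + 1 := ⟨q - 1, by omega⟩
        rw [Nat.add_sub_cancel]
        have e : (p + 1) * (k + 2) = p * (k + 2) + (k + 2) := by ring
        rw [e] at h1
        omega
    have e1 : (k + 2) ^ 3 < 2 * (2 * (k + 2) ^ 2 * (k + 1)) := by
      have : (k + 2) ^ 3 + (k + 2) ^ 2 * (3 * k + 2) = 2 * (2 * (k + 2) ^ 2 * (k + 1)) := by ring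
      have h2 : 0 < (k + 2) ^ 2 * (3 * k + 2) := by positivity
      omega
    have hl3 : (k + 2) ^ 3 < 2 * l := by omega
    have hkl : k + 2 ≤ l := by nlinarith
    have hb := FR.bound_m k l q T.card B.card hq (by rw [hTB]; exact hC) ?_ ?_
    · omega
    · rw [card_eq_sum_card_fiberwise (f := ctr) (t := L) (fun c hc => (hTC c hc).2.1)]
      have h1 : ∀ x ∈ L, (T.filter (fun c => ctr c = x)).card ≤ q - 1 := by
        intro x hx
        have := hA x hx
        change (T.filter (fun c => ctr c = x)).card < q at this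
        omega
      refine (sum_le_sum h1).trans (le_of_eq ?_)
      rw [sum_const, hL, smul_eq_mul, mul_comm]
    · refine ar1 k l hkl _ _ _ ?_
      have h1 := FR.dc hS (L.powersetCard (k + 2)) (Subset.refl _)
      rw [card_powersetCard, hL] at h1
      refine h1.trans ?_
      have h2 : ∑ c ∈ C, ((F c).filter (fun X => X ∈ L.powersetCard (k + 2))).card ≤
          ∑ c ∈ C, (F c).card := sum_le_sum fun c _ => card_filter_le _ _
      refine h2.trans ?_
      rw [← sum_filter_add_sum_filter_not C (fun c => ∃ x ∈ L, ∀ X ∈ G c, x ∈ X)]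
      refine Nat.add_le_add ?_ ?_
      · refine (sum_le_card_nsmul T _ ((l - 1).choose (k + 1)) fun c hc => ?_).trans
          (le_of_eq (smul_eq_mul _ _))
        rw [← hL]
        exact FR.star L k (F c) (hS.sub c (hTC c hc).1) (ctr c) (hTC c hc).2.1
          (fun X hX => (hTC c hc).2.2 X (hFG c X hX))
      · refine (sum_le_card_nsmul B _ (2 * (k + 2) * (l - 2).choose k)
          fun c hc => ?_).trans (le_of_eq (smul_eq_mul _ _))
        by_cases hF : ∀ x ∈ L, ∃ X ∈ F c, x ∉ X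
        · obtain ⟨j, rfl⟩ : ∃ j, k = j + 1 := ⟨k - 1, by omega⟩
          rw [← hL] at hl3 ⊢
          exact FR.non L j (F c) (hS.sub c (hBC c hc).1) hl3 (hS.int c (hBC c hc).1) hF
        · push Not at hF
          obtain ⟨x, hx, hxF⟩ := hF
          obtain ⟨U, hU, hxU⟩ := (hBC c hc).2 x hx
          have h3 := (hGm c U).1 hU
          rw [← hL]
          exact small L k (F c) (hS.sub c (hBC c hc).1) x hx hxF U h3.2.1 h3.2.2 hxU
            (fun X hX => hI c (hBC c hc).1 X (hFG c X hX) U hU)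

end Pool.Agent.Lib.MP_6805b2_co.FL
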