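import Pool.Agent.Lib.MP_6805b2_co.FL.Def

/-!
# Limit systems: removing a star at every point
-/

namespace Pool.Agent.Lib.MP_6805b2_co.FL

open Finset

/-- Proof: for `x ∈ L` the set `{x}` is a member of at least `q + 1 + 1 - n ≥ 1` families (`1 ≤ n`); choose
`g x ∈ C` with `{x} ∈ G (g x)`. As `G (g x)` is intersecting, all its members contain `x`; so `g` is injective
on `L`, and `C \ L.image g` has `C.card - l` elements. A set `Y ⊆ L` loses at most `Y.card` colours (only the
`g x` with `x ∈ Y`; compare `FR.removeC` in FR/Step.lean). -/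
theorem down (n l q : ℕ) (hn : 1 ≤ n) (hq : n ≤ q + 1) (h : Lim n l (q + 1)) : Lim n l q := by
  obtain ⟨L, C, G, hL, hC, hI, hcov⟩ := h
  have hex : ∀ x ∈ L, ∃ c ∈ C, {x} ∈ G c := by
    intro x hx
    have h1 := hcov {x} (singleton_subset_iff.2 hx) (by rw [card_singleton]; exact hn)
    rw [card_singleton] at h1
    have h2 : 0 < (C.filter (fun c => {x} ∈ G c)).card := by omega
    obtain ⟨c, hc⟩ := card_pos.1 h2
    exact ⟨c, (mem_filter.1 hc).1, (mem_filter.1 hc).2⟩
  choose! g hg1 hg2 using hex
  have hstar : ∀ x ∈ L, ∀ X ∈ G (g x), x ∈ X := by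
    intro x hx X hX
    have h1 := hI (g x) (hg1 x hx) X hX {x} (hg2 x hx)
    by_contra hcon
    exact h1 (disjoint_singleton_right.2 hcon)
  have hinj : Set.InjOn g L := by
    intro x hx y hy hxy
    have h1 := hstar x hx {y} (by rw [hxy]; exact hg2 y hy)
    exact mem_singleton.1 h1
  have hsub : L.image g ⊆ C := by
    intro c hc
    obtain ⟨x, hx, rfl⟩ := mem_image.1 hc
    exact hg1 x hx
  have hcard : (L.image g).card = l := by
    rw [card_image_of_injOn hinj, hL]
  have hle : l ≤ C.card := by
    rw [← hcard]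
    exact card_le_card hsub
  have hCc : (C \ L.image g).card = C.card - l := by
    rw [card_sdiff_of_subset hsub, hcard]
  refine ⟨L, C \ L.image g, G, hL, ?_, ?_, ?_⟩
  · rw [hCc]
    have h1 : (q + 1) * l = q * l + l := by ring
    omega
  · intro c hc
    exact hI c (mem_sdiff.1 hc).1
  · intro Y hY hYn
    have h1 := hcov Y hY hYn
    have h2 : C.filter (fun c => Y ∈ G c) ⊆
        (C \ L.image g).filter (fun c => Y ∈ G c) ∪ Y.image g := by
      intro c hc
      obtain ⟨hc1, hc2⟩ := mem_filter.1 hc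
      by_cases h3 : c ∈ L.image g
      · obtain ⟨x, hx, rfl⟩ := mem_image.1 h3
        exact mem_union_right _ (mem_image_of_mem g (hstar x hx Y hc2))
      · exact mem_union_left _ (mem_filter.2 ⟨mem_sdiff.2 ⟨hc1, h3⟩, hc2⟩)
    have h3 := (card_le_card h2).trans (card_union_le _ _)
    have h4 : (Y.image g).card ≤ Y.card := card_image_le
    have h5 : (q + 1) * Y.card = q * Y.card + Y.card := by ring
    omega

end Pool.Agent.Lib.MP_6805b2_co.FL
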