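import Pool.Agent.Lib.MP_6805b2_co.FR.Core

/-!
# Maximal colour classes
-/

namespace Pool.Agent.Lib.MP_6805b2_co.FL

open Finset

/-- Proof: for each `c ∈ C` take an inclusion-maximal (maximal cardinality) intersecting family
`G ⊆ V.powersetCard n` with `F c ⊆ G`. If `X` meets all members of `G` (and itself: `1 ≤ n`), then `insert X G` is
again intersecting, so `X ∈ G`. -/
theorem maxi {n : ℕ} {V C : Finset ℕ} {F : ℕ → Finset (Finset ℕ)} {K : ℕ} (hn : 1 ≤ n)
    (hS : FR.Sy n V C F K) : ∃ F' : ℕ → Finset (Finset ℕ), FR.Sy n V C F' K ∧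
      ∀ c ∈ C, ∀ X, X ⊆ V → X.card = n → (∀ Y ∈ F' c, ¬ Disjoint X Y) → X ∈ F' c := by
  classical
  have key : ∀ c, c ∈ C → ∃ G : Finset (Finset ℕ), F c ⊆ G ∧ (∀ X ∈ G, X ⊆ V ∧ X.card = n) ∧
      (∀ X ∈ G, ∀ Y ∈ G, ¬ Disjoint X Y) ∧
      ∀ X, X ⊆ V → X.card = n → (∀ Y ∈ G, ¬ Disjoint X Y) → X ∈ G := by
    intro c hc
    let T : Finset (Finset (Finset ℕ)) := (V.powersetCard n).powerset.filter
      (fun G => F c ⊆ G ∧ ∀ X ∈ G, ∀ Y ∈ G, ¬ Disjoint X Y)
    have hT : T.Nonempty := by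
      refine ⟨F c, mem_filter.2 ⟨mem_powerset.2 fun X hX => mem_powersetCard.2 (hS.sub c hc X hX),
        Subset.rfl, hS.int c hc⟩⟩
    obtain ⟨G, hG, hmax⟩ := exists_max_image T card hT
    obtain ⟨h1, h2, h3⟩ := mem_filter.1 hG
    have h1 := mem_powerset.1 h1
    refine ⟨G, h2, fun X hX => mem_powersetCard.1 (h1 hX), h3, fun X hXV hXn hX => ?_⟩
    by_contra hXG
    have hXX : ¬ Disjoint X X := by
      rw [disjoint_self]
      intro h
      rw [h] at hXn
      simp at hXn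
      omega
    have h4 : insert X G ∈ T := by
      refine mem_filter.2 ⟨mem_powerset.2 (insert_subset (mem_powersetCard.2 ⟨hXV, hXn⟩) h1),
        h2.trans (subset_insert _ _), fun A hA B hB => ?_⟩
      rcases mem_insert.1 hA with hA' | hA'
      · rcases mem_insert.1 hB with hB' | hB'
        · rw [hA', hB']
          exact hXX
        · rw [hA']
          exact hX B hB'
      · rcases mem_insert.1 hB with hB' | hB'
        · rw [hB']
          exact fun h => hX A hA' h.symm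
        · exact h3 A hA' B hB'
    have h5 := hmax _ h4
    rw [card_insert_of_notMem hXG] at h5
    omega
  choose G hG1 hG2 hG3 hG4 using key
  refine ⟨fun c => if h : c ∈ C then G c h else F c, ⟨?_, ?_, ?_⟩, ?_⟩
  · intro c hc X hX
    simp only [dif_pos hc] at hX
    exact hG2 c hc X hX
  · intro c hc X hX Y hY
    simp only [dif_pos hc] at hX hY
    exact hG3 c hc X hX Y hY
  · intro X hXV hXn
    refine (hS.cov X hXV hXn).trans (card_le_card fun c hc => ?_)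
    obtain ⟨h1, h2⟩ := mem_filter.1 hc
    refine mem_filter.2 ⟨h1, ?_⟩
    simp only [dif_pos h1]
    exact hG1 c h1 h2
  · intro c hc X hXV hXn hX
    simp only [dif_pos hc] at hX ⊢
    exact hG4 c hc X hXV hXn hX

/-- Transversals with at most `n` points of a maximal class meet. Proof: if `Y`, `Y'` are disjoint, extend them to
disjoint `n`-subsets of `V` (`2 n ≤ V.card`, `exists_subsuperset_card_eq` twice); both are in `F c`. -/
theorem meet {n : ℕ} {V C : Finset ℕ} {F : ℕ → Finset (Finset ℕ)} {K : ℕ} (hS : FR.Sy n V C F K)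
    (hV : 2 * n ≤ V.card)
    (hmax : ∀ c ∈ C, ∀ X, X ⊆ V → X.card = n → (∀ Y ∈ F c, ¬ Disjoint X Y) → X ∈ F c)
    (c : ℕ) (hc : c ∈ C) (Y Y' : Finset ℕ) (hY : Y ⊆ V) (hY' : Y' ⊆ V) (cY : Y.card ≤ n)
    (cY' : Y'.card ≤ n) (tY : ∀ X ∈ F c, ¬ Disjoint Y X) (tY' : ∀ X ∈ F c, ¬ Disjoint Y' X) :
    ¬ Disjoint Y Y' := by
  intro hd
  have h1 : Y ⊆ V \ Y' := fun a ha => mem_sdiff.2 ⟨hY ha, fun h => disjoint_left.1 hd ha h⟩
  have h2 : n ≤ (V \ Y').card := by
    rw [card_sdiff_of_subset hY']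
    omega
  obtain ⟨Z, hZ1, hZ2, hZ3⟩ := exists_subsuperset_card_eq h1 cY h2
  have hZV : Z ⊆ V := hZ2.trans sdiff_subset
  have h3 : Y' ⊆ V \ Z := fun a ha => mem_sdiff.2 ⟨hY' ha, fun h => (mem_sdiff.1 (hZ2 h)).2 ha⟩
  have h4 : n ≤ (V \ Z).card := by
    rw [card_sdiff_of_subset hZV]
    omega
  obtain ⟨Z', hZ1', hZ2', hZ3'⟩ := exists_subsuperset_card_eq h3 cY' h4
  have h5 : Z ∈ F c := hmax c hc Z hZV hZ3 fun W hW h => tY W hW (h.mono_left hZ1)
  have h6 : Z' ∈ F c := hmax c hc Z' (hZ2'.trans sdiff_subset) hZ3' fun W hW h =>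
    tY' W hW (h.mono_left hZ1')
  refine hS.int c hc Z h5 Z' h6 ?_
  rw [disjoint_left]
  exact fun a ha ha' => (mem_sdiff.1 (hZ2' ha')).2 ha

end Pool.Agent.Lib.MP_6805b2_co.FL
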