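import Pool.Agent.Lib.MP_6805b2_co.FR.Step
import Pool.Agent.Lib.MP_6805b2_co.FL.Def
import Pool.Agent.Lib.MP_6805b2_co.FL.Max
import Pool.Agent.Lib.MP_6805b2_co.FL.Cnt

/-!
# A counterexample with many points gives a limit system
-/

namespace Pool.Agent.Lib.MP_6805b2_co.FL

open Finset

/-- A counterexample with many points gives a limit system with `n ^ 2 (n - 1)` points. -/
theorem ext (k l0 m q : ℕ) (hk : 2 ≤ k) (hl0 : l0 = (k + 2) ^ 2 * (k + 1))
    (hm : l0 + l0 * (k + 2) + (k + 2) ≤ m) (hq : 1 ≤ q)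
    (h : FR.Cex (k + 2) m q) : Lim (k + 2) l0 q := by
  classical
  obtain ⟨V, C, F0, hV, hC, hS0⟩ := h
  obtain ⟨F, hS, hmax⟩ := maxi (by omega) hS0
  obtain ⟨ctr, hctr⟩ := FR.exists_ctr V F
  set T := C.filter (fun c => ∃ x ∈ V, ∀ X ∈ F c, x ∈ X) with hT
  set B := C.filter (fun c => ¬ ∃ x ∈ V, ∀ X ∈ F c, x ∈ X) with hB
  have hl4 : 2 * (k + 2) ≤ l0 := by
    rw [hl0]
    have e1 : (k + 2) ^ 2 * (k + 1) = (k + 2) * ((k + 2) * (k + 1)) := by ring
    rw [e1, mul_comm]
    exact Nat.mul_le_mul_left _ (by nlinarith)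
  have hVn : V.Nonempty := card_pos.1 (by omega)
  have hV2 : 2 * (k + 2) ≤ V.card := by omega
  have hTB : T.card + B.card = C.card := card_filter_add_card_filter_not _
  have hTC : ∀ c ∈ T, c ∈ C ∧ ctr c ∈ V ∧ ∀ X ∈ F c, ctr c ∈ X := by
    intro c hc
    obtain ⟨h1, h2⟩ := mem_filter.1 hc
    exact ⟨h1, hctr c h2⟩
  have hBC : ∀ c ∈ B, c ∈ C ∧ ∀ x, ∃ X ∈ F c, x ∉ X := by
    intro c hc
    obtain ⟨h1, h2⟩ := mem_filter.1 hc
    have h3 : ∀ x ∈ V, ∃ X ∈ F c, x ∉ X := by
      intro x hx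
      by_contra hcon
      push Not at hcon
      exact h2 ⟨x, hx, hcon⟩
    refine ⟨h1, fun x => ?_⟩
    by_cases hx : x ∈ V
    · exact h3 x hx
    · obtain ⟨v, hv⟩ := hVn
      obtain ⟨X, hX, _⟩ := h3 v hv
      exact ⟨X, hX, fun h => hx ((hS.sub c h1 X hX).1 h)⟩
  let A : ℕ → Finset ℕ := fun x => T.filter (fun c => ctr c = x)
  -- the stars at the points of a set
  have hstars : ∀ W, W ⊆ V → (T.filter (fun c => ctr c ∈ W)).card = ∑ x ∈ W, (A x).card := by
    intro W _
    have h0 : ∀ c ∈ T.filter (fun c => ctr c ∈ W), ctr c ∈ W := fun c hc => (mem_filter.1 hc).2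
    rw [card_eq_sum_card_fiberwise (s := T.filter (fun c => ctr c ∈ W)) (f := ctr) (t := W) h0]
    refine sum_congr rfl fun x hx => ?_
    congr 1
    ext c
    simp only [A, mem_filter]
    constructor
    · rintro ⟨⟨h1, _⟩, h3⟩
      exact ⟨h1, h3⟩
    · rintro ⟨h1, h3⟩
      exact ⟨⟨h1, h3 ▸ hx⟩, h3⟩
  set L := V.filter (fun x => (A x).card < q) with hL
  have hLV : L ⊆ V := filter_subset _ _
  -- the number of the non-star classes
  have hcount : ∀ W, W ⊆ V → (∀ x ∈ V, x ∉ W → q ≤ (A x).card) →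
      (T.filter (fun c => ctr c ∈ W)).card + B.card + q * (V.card - W.card) +
        ((V \ W).filter (fun x => q < (A x).card)).card ≤ C.card := by
    intro W hW hWq
    have h1 : (T.filter (fun c => ctr c ∈ W)).card + (T.filter (fun c => ctr c ∈ V \ W)).card =
        T.card := by
      rw [← card_filter_add_card_filter_not (s := T) (fun c => ctr c ∈ W)]
      congr 2
      ext c
      simp only [mem_filter, mem_sdiff]
      constructor
      · rintro ⟨h1, _, h3⟩
        exact ⟨h1, h3⟩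
      · rintro ⟨h1, h3⟩
        exact ⟨h1, (hTC c h1).2.1, h3⟩
    have h2 : q * (V.card - W.card) + ((V \ W).filter (fun x => q < (A x).card)).card ≤
        (T.filter (fun c => ctr c ∈ V \ W)).card := by
      rw [hstars _ sdiff_subset, ← card_sdiff_of_subset hW, card_filter, mul_comm, ← smul_eq_mul,
        ← sum_const, ← sum_add_distrib]
      refine sum_le_sum fun x hx => ?_
      have := hWq x (mem_sdiff.1 hx).1 (mem_sdiff.1 hx).2
      split_ifs <;> omega
    omega
  have hq1 : ∀ x ∈ V, x ∉ L → q ≤ (A x).card := by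
    intro x hx hxL
    by_contra hcon
    exact hxL (mem_filter.2 ⟨hx, by omega⟩)
  have hmulL : q * (V.card - L.card) + q * L.card = q * m := by
    rw [← Nat.mul_add, Nat.sub_add_cancel (card_le_card hLV), hV]
  -- the number of the points with few stars
  have hLl0 : L.card ≤ l0 := by
    rw [hl0]
    refine few k L.card q hk hq L (T.filter (fun c => ctr c ∈ L)) B rfl F ctr
      (fun c hc X hX => (hS.sub c (hBC c hc).1 X hX).2)
      (fun c hc => ⟨(mem_filter.1 hc).2, (hTC c (mem_filter.1 hc).1).2.2⟩)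
      (fun c hc => hS.int c (hBC c hc).1) (fun c hc => (hBC c hc).2) ?_ ?_ ?_
    · intro X hX hXn
      refine (hS.cov X (hX.trans hLV) hXn).trans ((card_le_card fun c hc => ?_).trans
        (card_union_le _ _))
      obtain ⟨h1, h2⟩ := mem_filter.1 hc
      by_cases h3 : ∃ x ∈ V, ∀ X ∈ F c, x ∈ X
      · have h4 : c ∈ T := mem_filter.2 ⟨h1, h3⟩
        exact mem_union_left _ (mem_filter.2 ⟨mem_filter.2 ⟨h4, hX ((hTC c h4).2.2 X h2)⟩, h2⟩)
      · exact mem_union_right _ (mem_filter.2 ⟨mem_filter.2 ⟨h1, h3⟩, h2⟩)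
    · have h1 := hcount L hLV hq1
      omega
    · rw [hstars L hLV]
      refine (sum_le_card_nsmul L _ (q - 1) fun x hx => ?_).trans
        (le_of_eq (by rw [smul_eq_mul, mul_comm]))
      have := (mem_filter.1 hx).2
      change (A x).card < q at this
      omega
  -- a set of exactly `l0` points
  obtain ⟨U0, hLU, hU0, hU0c⟩ := exists_subsuperset_card_eq hLV hLl0 (show l0 ≤ V.card by omega)
  clear hLl0
  have hq2 : ∀ x ∈ V, x ∉ U0 → q ≤ (A x).card := fun x hx hxU => hq1 x hx fun h => hxU (hLU h)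
  clear hq1
  clear hLU hLV
  clear_value L
  clear hL
  have hc2 := hcount U0 hU0 hq2
  set E := (V \ U0).filter (fun x => q < (A x).card) with hE
  have hmul : q * (V.card - U0.card) + q * U0.card = q * m := by
    rw [← Nat.mul_add, Nat.sub_add_cancel (card_le_card hU0), hV]
  have hcovU : ∀ X, X ⊆ U0 → X.card = k + 2 → (q - 1) * (k + 2) + 1 ≤
      ((T.filter (fun c => ctr c ∈ U0)).filter (fun c => X ∈ F c)).card +
        (B.filter (fun c => X ∈ F c)).card := by
    intro X hX hXn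
    refine (hS.cov X (hX.trans hU0) hXn).trans ((card_le_card fun c hc => ?_).trans
      (card_union_le _ _))
    obtain ⟨h1, h2⟩ := mem_filter.1 hc
    by_cases h3 : ∃ x ∈ V, ∀ X ∈ F c, x ∈ X
    · have h4 : c ∈ T := mem_filter.2 ⟨h1, h3⟩
      exact mem_union_left _ (mem_filter.2 ⟨mem_filter.2 ⟨h4, hX ((hTC c h4).2.2 X h2)⟩, h2⟩)
    · exact mem_union_right _ (mem_filter.2 ⟨mem_filter.2 ⟨h1, h3⟩, h2⟩)
  have hbe : B.card + E.card ≤ l0 := by
    refine ar3 k q l0 (T.filter (fun c => ctr c ∈ U0)).card B.card E.card (by omega) hq hl0 ?_ ?_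
    · rw [← hU0c]
      omega
    · refine cnt k l0 q hk hl0.ge (by omega) U0 (T.filter (fun c => ctr c ∈ U0)) B hU0c F ctr
        (fun c hc X hX => (hS.sub c (hBC c hc).1 X hX).2)
        (fun c hc => ⟨(mem_filter.1 hc).2, (hTC c (mem_filter.1 hc).1).2.2⟩)
        (fun c hc => hS.int c (hBC c hc).1) (fun c hc => (hBC c hc).2) hcovU
  have hO : k + 2 + B.card * (k + 2) ≤ ((V \ U0) \ E).card := by
    have h1 : ((V \ U0) \ E).card = V.card - U0.card - E.card := by
      rw [card_sdiff_of_subset (show E ⊆ V \ U0 from filter_subset _ _), card_sdiff_of_subset hU0]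
    have h2 : B.card * (k + 2) + E.card ≤ l0 * (k + 2) := by
      calc B.card * (k + 2) + E.card ≤ B.card * (k + 2) + E.card * (k + 2) := by
            have : E.card * 1 ≤ E.card * (k + 2) := Nat.mul_le_mul_left _ (by omega)
            omega
        _ = (B.card + E.card) * (k + 2) := by ring
        _ ≤ _ := Nat.mul_le_mul_right _ hbe
    rw [h1, hV, hU0c]
    omega
  refine ⟨U0, C \ (T.filter (fun c => ctr c ∉ U0)),
    fun c => U0.powerset.filter (fun Y => Y.card ≤ k + 2 ∧ ∀ X ∈ F c, ¬ Disjoint Y X),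
    hU0c, ?_, ?_, ?_⟩
  · have h1 : T.filter (fun c => ctr c ∉ U0) ⊆ C := fun c hc => (hTC c (mem_filter.1 hc).1).1
    rw [card_sdiff_of_subset h1]
    have h2 : (T.filter (fun c => ctr c ∈ U0)).card + (T.filter (fun c => ctr c ∉ U0)).card =
        T.card := card_filter_add_card_filter_not _
    have hql : q * U0.card = q * l0 := by rw [hU0c]
    omega
  · intro c hc Y hY Y' hY'
    obtain ⟨h1, h2, h3⟩ := mem_filter.1 hY
    obtain ⟨g1, g2, g3⟩ := mem_filter.1 hY'
    exact meet hS hV2 hmax c (mem_sdiff.1 hc).1 Y Y' ((mem_powerset.1 h1).trans hU0)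
      ((mem_powerset.1 g1).trans hU0) h2 g2 h3 g3
  · intro Y hY hYn
    -- members disjoint from `Y`
    have hU : ∀ c, ∃ U : Finset ℕ, U.card ≤ k + 2 ∧
        (c ∈ B → (∃ X ∈ F c, Disjoint Y X) → U ∈ F c ∧ Disjoint Y U) := by
      intro c
      by_cases h : c ∈ B ∧ ∃ X ∈ F c, Disjoint Y X
      · obtain ⟨h1, X, h2, h3⟩ := h
        exact ⟨X, (hS.sub c (hBC c h1).1 X h2).2.le, fun _ _ => ⟨h2, h3⟩⟩
      · exact ⟨∅, Nat.zero_le _, fun h1 h2 => absurd ⟨h1, h2⟩ h⟩
    choose U hUc hUd using hU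
    have hZe : k + 2 - Y.card ≤ (((V \ U0) \ E) \ B.biUnion U).card := by
      have h1 : (B.biUnion U).card ≤ B.card * (k + 2) :=
        card_biUnion_le_card_mul _ _ _ fun c _ => hUc c
      have h2 := le_card_sdiff (B.biUnion U) ((V \ U0) \ E)
      omega
    obtain ⟨Z, hZ', hZn⟩ := exists_subset_card_eq hZe
    have hZ : Z ⊆ (V \ U0) \ E := hZ'.trans sdiff_subset
    have hdis : Disjoint Y Z := by
      rw [disjoint_left]
      intro x hx hxZ
      exact (mem_sdiff.1 (mem_sdiff.1 (hZ hxZ)).1).2 (hY hx)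
    have hX : Y ∪ Z ⊆ V := union_subset (hY.trans hU0) fun z hz =>
      (mem_sdiff.1 (mem_sdiff.1 (hZ hz)).1).1
    have hXn : (Y ∪ Z).card = k + 2 := by
      rw [card_union_of_disjoint hdis, hZn]
      omega
    have h1 := hS.cov (Y ∪ Z) hX hXn
    have h2 : (C.filter (fun c => Y ∪ Z ∈ F c)).card ≤
        ((C \ (T.filter (fun c => ctr c ∉ U0))).filter
          (fun c => Y ∈ U0.powerset.filter (fun Y => Y.card ≤ k + 2 ∧ ∀ X ∈ F c, ¬ Disjoint Y X))).card +
        (T.filter (fun c => ctr c ∈ Z)).card := by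
      refine (card_le_card fun c hc => ?_).trans (card_union_le _ _)
      obtain ⟨hcC, hcF⟩ := mem_filter.1 hc
      by_cases h3 : ∃ x ∈ V, ∀ X ∈ F c, x ∈ X
      · have h4 : c ∈ T := mem_filter.2 ⟨hcC, h3⟩
        have h5 := (hTC c h4).2.2 _ hcF
        rcases mem_union.1 h5 with h6 | h6
        · refine mem_union_left _ (mem_filter.2 ⟨mem_sdiff.2 ⟨hcC, fun h7 => ?_⟩,
            mem_filter.2 ⟨mem_powerset.2 hY, hYn, fun X hX => ?_⟩⟩)
          · exact (mem_filter.1 h7).2 (hY h6)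
          · rw [not_disjoint_iff]
            exact ⟨ctr c, h6, (hTC c h4).2.2 X hX⟩
        · exact mem_union_right _ (mem_filter.2 ⟨h4, h6⟩)
      · have h4 : c ∈ B := mem_filter.2 ⟨hcC, h3⟩
        refine mem_union_left _ (mem_filter.2 ⟨mem_sdiff.2 ⟨hcC, fun h7 => ?_⟩,
          mem_filter.2 ⟨mem_powerset.2 hY, hYn, fun X hX => ?_⟩⟩)
        · exact h3 (mem_filter.1 (mem_filter.1 h7).1).2
        · intro h6
          obtain ⟨g1, g2⟩ := hUd c h4 ⟨X, hX, h6⟩
          refine hS.int c hcC _ hcF _ g1 ?_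
          rw [disjoint_union_left]
          refine ⟨g2, ?_⟩
          rw [disjoint_left]
          intro z hz hzU
          exact (mem_sdiff.1 (hZ' hz)).2 (mem_biUnion.2 ⟨c, h4, hzU⟩)
    have h3 : (T.filter (fun c => ctr c ∈ Z)).card = q * (k + 2 - Y.card) := by
      rw [hstars Z (fun z hz => (mem_sdiff.1 (mem_sdiff.1 (hZ hz)).1).1), ← hZn, mul_comm,
        ← smul_eq_mul, ← sum_const]
      refine sum_congr rfl fun z hz => ?_
      have h4 := mem_sdiff.1 (hZ hz)
      have h5 := hq2 z (mem_sdiff.1 h4.1).1 (mem_sdiff.1 h4.1).2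
      have h6 : ¬ q < (A z).card := fun h => h4.2 (mem_filter.2 ⟨h4.1, h⟩)
      omega
    rw [h3] at h2
    have h4 : q * (k + 2 - Y.card) + q * Y.card = q * (k + 2) := by
      rw [← Nat.mul_add, Nat.sub_add_cancel hYn]
    obtain ⟨p, rfl⟩ : ∃ p, q = p + 1 := ⟨q - 1, by omega⟩
    rw [Nat.add_sub_cancel] at h1
    have e1 : (p + 1) * (k + 2) = p * (k + 2) + (k + 2) := by ring
    beta_reduce
    omega

end Pool.Agent.Lib.MP_6805b2_co.FL
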