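import Pool.Agent.Lib.MP_6805b2_co.FL.HM

/-!
# Few points have fewer than `q` stars
-/

namespace Pool.Agent.Lib.MP_6805b2_co.FL

open Finset

theorem ar1 (k m : ℕ) (hm : k + 2 ≤ m) (K τ β : ℕ)
    (h : K * m.choose (k + 2) ≤ τ * (m - 1).choose (k + 1) +
      β * ((k + 2) * (m - 2).choose k)) :
    K * (m * (m - 1)) ≤ (k + 2) * τ * (m - 1) + (k + 2) ^ 2 * (k + 1) * β := by
  obtain ⟨p, rfl⟩ : ∃ p, m = p + 2 := ⟨m - 2, by omega⟩
  have e1 : (p + 1) * p.choose k = (p + 1).choose (k + 1) * (k + 1) := Nat.add_one_mul_choose_eq p k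
  have e2 : (p + 2) * (p + 1).choose (k + 1) = (p + 2).choose (k + 2) * (k + 2) :=
    Nat.add_one_mul_choose_eq (p + 1) (k + 1)
  have ht : 0 < p.choose k := Nat.choose_pos (by omega)
  simp only [Nat.add_sub_cancel, show p + 2 - 1 = p + 1 from rfl] at h ⊢
  refine Nat.le_of_mul_le_mul_right ?_ ht
  have h1 := Nat.mul_le_mul_right ((k + 2) * (k + 1)) h
  calc K * ((p + 2) * (p + 1)) * p.choose k
      = K * (p + 2) * ((p + 1) * p.choose k) := by ring
    _ = K * (k + 1) * ((p + 2) * (p + 1).choose (k + 1)) := by rw [e1]; ring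
    _ = K * (p + 2).choose (k + 2) * ((k + 2) * (k + 1)) := by rw [e2]; ring
    _ ≤ _ := h1
    _ = (k + 2) * τ * ((p + 1).choose (k + 1) * (k + 1)) +
        (k + 2) ^ 2 * (k + 1) * β * p.choose k := by ring
    _ = ((k + 2) * τ * (p + 1) + (k + 2) ^ 2 * (k + 1) * β) * p.choose k := by rw [← e1]; ring

/-- The inequalities of `few` bound `m`. -/
theorem bound_m (k m q τ β : ℕ) (hq : 1 ≤ q) (h1 : τ + β + 2 * (k + 2) ≤ q * m + 1)
    (h2 : τ ≤ (q - 1) * m)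
    (h3 : ((q - 1) * (k + 2) + 1) * (m * (m - 1)) ≤
      (k + 2) * τ * (m - 1) + (k + 2) ^ 2 * (k + 1) * β) :
    m ≤ (k + 2) ^ 2 * (k + 1) := by
  by_contra hcon
  push Not at hcon
  obtain ⟨Q, rfl⟩ : ∃ Q, q = Q + 1 := ⟨q - 1, by omega⟩
  obtain ⟨p, rfl⟩ : ∃ p, m = p + 1 := ⟨m - 1, by omega⟩
  rw [Nat.add_sub_cancel] at h2 h3
  rw [Nat.add_sub_cancel] at h3
  set c : ℕ := (k + 2) ^ 2 * (k + 1) with hc
  have hc0 : 0 < c := by positivity
  have hpc : c ≤ p := by omega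
  zify at h1 h2 h3 hpc hc0
  have a1 : (c : ℤ) * β ≤ c * ((Q + 1) * (p + 1) + 1 - 2 * (k + 2) - τ) :=
    mul_le_mul_of_nonneg_left (by linarith) hc0.le
  have a2 : (0 : ℤ) ≤ ((k + 2) * p - c) * (Q * (p + 1) - τ) := by
    refine mul_nonneg ?_ (by linarith)
    nlinarith [mul_nonneg (Int.natCast_nonneg k) (Int.natCast_nonneg p), Int.natCast_nonneg p]
  have a3 : ((p : ℤ) + 1) * p ≤ c * (p + 2 - 2 * (k + 2)) := by nlinarith
  have a4 : (0 : ℤ) ≤ c * k := mul_nonneg hc0.le (Int.natCast_nonneg k)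
  nlinarith [mul_nonneg (show (0 : ℤ) ≤ p - c by linarith) (show (0 : ℤ) ≤ p by linarith)]

/-- A family of `(k + 2)`-subsets of `V` through `x` all meeting a set `T ∌ x` with at most `k + 2` points. -/
theorem small (V : Finset ℕ) (k : ℕ) (G : Finset (Finset ℕ))
    (hG : ∀ X ∈ G, X ⊆ V ∧ X.card = k + 2) (x : ℕ) (hx : x ∈ V) (hxG : ∀ X ∈ G, x ∈ X)
    (T : Finset ℕ) (hTc : T.card ≤ k + 2) (hxT : x ∉ T)
    (hTG : ∀ X ∈ G, ¬ Disjoint X T) : G.card ≤ (k + 2) * (V.card - 2).choose k := by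
  have h1 : G ⊆ T.biUnion fun y =>
      (V.powersetCard (k + 2)).filter (fun X => x ∈ X ∧ y ∈ X) := by
    intro X hX
    obtain ⟨y, hy1, hy2⟩ := Finset.not_disjoint_iff.1 (hTG X hX)
    exact mem_biUnion.2 ⟨y, hy2, mem_filter.2 ⟨mem_powersetCard.2 (hG X hX), hxG X hX, hy1⟩⟩
  have h2 : ∀ y ∈ T, ((V.powersetCard (k + 2)).filter (fun X => x ∈ X ∧ y ∈ X)).card ≤
      (V.card - 2).choose k := by
    intro y hy
    by_cases hyV : y ∈ V
    · exact FR.two V x y hx (fun h => hxT (h ▸ hy)) hyV k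
    · rw [filter_false_of_mem, card_empty]
      · exact Nat.zero_le _
      · intro X hX h
        exact hyV ((mem_powersetCard.1 hX).1 h.2)
  refine (card_le_card h1).trans (card_biUnion_le.trans ?_)
  refine (sum_le_sum h2).trans ?_
  rw [sum_const, smul_eq_mul]
  exact Nat.mul_le_mul_right _ hTc

/-- `T` indexes star classes with centres in `L`, `B` classes without a common point; together they cover
every `(k + 2)`-subset of `L` at least `(q - 1) (k + 2) + 1` times. Then `L` is small. -/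
theorem few (k l q : ℕ) (hk : 2 ≤ k) (hq : 1 ≤ q) (L T B : Finset ℕ) (hL : L.card = l)
    (F : ℕ → Finset (Finset ℕ)) (ctr : ℕ → ℕ)
    (hF : ∀ c ∈ B, ∀ X ∈ F c, X.card = k + 2)
    (hT : ∀ c ∈ T, ctr c ∈ L ∧ ∀ X ∈ F c, ctr c ∈ X)
    (hI : ∀ c ∈ B, ∀ X ∈ F c, ∀ Y ∈ F c, ¬ Disjoint X Y)
    (hns : ∀ c ∈ B, ∀ x, ∃ X ∈ F c, x ∉ X)
    (hcov : ∀ X, X ⊆ L → X.card = k + 2 → (q - 1) * (k + 2) + 1 ≤
      (T.filter (fun c => X ∈ F c)).card + (B.filter (fun c => X ∈ F c)).card)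
    (h1 : T.card + B.card + 2 * (k + 2) ≤ q * l + 1) (h2 : T.card ≤ (q - 1) * l) :
    l ≤ (k + 2) ^ 2 * (k + 1) := by
  classical
  by_contra hcon
  rw [not_le] at hcon
  have hl3 : (k + 2) ^ 2 * (k + 1) ≤ l := hcon.le
  have hkl : k + 2 ≤ l := le_trans (by nlinarith) hl3
  refine absurd (bound_m k l q T.card B.card hq h1 h2 (ar1 k l hkl _ _ _ ?_)) (by omega)
  have h3 : ∑ _X ∈ L.powersetCard (k + 2), ((q - 1) * (k + 2) + 1) ≤
      ∑ X ∈ L.powersetCard (k + 2),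
        ((T.filter (fun c => X ∈ F c)).card + (B.filter (fun c => X ∈ F c)).card) :=
    sum_le_sum fun X hX => hcov X (mem_powersetCard.1 hX).1 (mem_powersetCard.1 hX).2
  rw [sum_const, card_powersetCard, hL, smul_eq_mul, mul_comm, sum_add_distrib] at h3
  have hsw : ∀ D : Finset ℕ, ∑ X ∈ L.powersetCard (k + 2), (D.filter (fun c => X ∈ F c)).card =
      ∑ c ∈ D, ((L.powersetCard (k + 2)).filter (fun X => X ∈ F c)).card := by
    intro D
    simp only [card_filter]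
    exact sum_comm
  rw [hsw T, hsw B] at h3
  refine h3.trans (Nat.add_le_add ?_ ?_)
  · refine (sum_le_card_nsmul T _ ((l - 1).choose (k + 1)) fun c hc => ?_).trans
      (le_of_eq (smul_eq_mul _ _))
    rw [← hL]
    refine FR.star L k _ (fun X hX => mem_powersetCard.1 (mem_filter.1 hX).1) (ctr c) (hT c hc).1 ?_
    exact fun X hX => (hT c hc).2 X (mem_filter.1 hX).2
  · refine (sum_le_card_nsmul B _ ((k + 2) * (l - 2).choose k) fun c hc => ?_).trans
      (le_of_eq (smul_eq_mul _ _))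
    set Fl := (L.powersetCard (k + 2)).filter (fun X => X ∈ F c) with hFl
    have hFlL : ∀ X ∈ Fl, X ⊆ L ∧ X.card = k + 2 := fun X hX =>
      mem_powersetCard.1 (mem_filter.1 hX).1
    have hFlF : ∀ X ∈ Fl, X ∈ F c := fun X hX => (mem_filter.1 hX).2
    by_cases hc2 : ∀ x ∈ L, ∃ X ∈ Fl, x ∉ X
    · obtain ⟨j, rfl⟩ : ∃ j, k = j + 1 := ⟨k - 1, by omega⟩
      rw [← hL] at hl3 ⊢
      exact hm L j (by omega) Fl hFlL hl3 (fun X hX Y hY => hI c hc X (hFlF X hX) Y (hFlF Y hY)) hc2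
    · push Not at hc2
      obtain ⟨x, hx, hxF⟩ := hc2
      obtain ⟨U, hU, hxU⟩ := hns c hc x
      rw [← hL]
      exact small L k Fl hFlL x hx hxF U (hF c hc U hU).le hxU
        (fun X hX => hI c hc X (hFlF X hX) U hU)

end Pool.Agent.Lib.MP_6805b2_co.FL
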