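import Pool.Agent.Lib.MP_6805b2_co.FL.Def

/-!
# A limit system gives counterexamples for all larger numbers of points
-/

namespace Pool.Agent.Lib.MP_6805b2_co.FL

open Finset

/-- Colours: the `c ∈ C` (as `2 c`), with the family of the `n`-subsets `X` of `V` with `X ∩ L ∈ G c`, and
`q` stars at every `z ∈ V \ L` (as `2 * Nat.pair z j + 1`, `j < q`). -/
theorem out (n l q m : ℕ) (hq : 1 ≤ q) (hm : l ≤ m) (h : Lim n l q) : FR.Cex n m q := by
  classical
  obtain ⟨L, C, G, hL, hC, hG, hcov⟩ := h
  obtain ⟨V, hLV, hV⟩ := Infinite.exists_superset_card_eq L m (by omega)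
  set F : ℕ → Finset (Finset ℕ) := fun d =>
    if d % 2 = 0 then (V.powersetCard n).filter (fun X => X ∩ L ∈ G (d / 2))
    else (V.powersetCard n).filter (fun X => (Nat.unpair (d / 2)).1 ∈ X) with hF
  have hFe : ∀ c, F (2 * c) = (V.powersetCard n).filter (fun X => X ∩ L ∈ G c) := by
    intro c
    simp only [hF]
    rw [if_pos (by omega)]
    have : 2 * c / 2 = c := by omega
    rw [this]
  have hFo : ∀ z j, F (2 * Nat.pair z j + 1) = (V.powersetCard n).filter (fun X => z ∈ X) := by
    intro z j
    simp only [hF]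
    rw [if_neg (by omega)]
    have : (2 * Nat.pair z j + 1) / 2 = Nat.pair z j := by omega
    rw [this, Nat.unpair_pair]
  set C' : Finset ℕ := C.image (fun c => 2 * c) ∪
    ((V \ L) ×ˢ range q).image (fun p => 2 * Nat.pair p.1 p.2 + 1) with hC'
  have hO : (V \ L).card + l = m := by
    rw [card_sdiff_of_subset hLV, hV, hL]
    omega
  refine ⟨V, C', F, hV, ?_, ?_, ?_, ?_⟩
  · have h1 : C'.card ≤ C.card + (V \ L).card * q := by
      refine (card_union_le _ _).trans (Nat.add_le_add card_image_le ?_)
      refine card_image_le.trans ?_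
      rw [card_product, card_range]
    have h2 : q * m = q * l + (V \ L).card * q := by
      rw [← hO]
      ring
    omega
  · intro d hd X hX
    rw [hC', mem_union, mem_image, mem_image] at hd
    rcases hd with ⟨c, hc, rfl⟩ | ⟨p, hp, rfl⟩
    · rw [hFe, mem_filter, mem_powersetCard] at hX
      exact hX.1
    · rw [hFo, mem_filter, mem_powersetCard] at hX
      exact hX.1
  · intro d hd X hX Y hY hXY
    rw [hC', mem_union, mem_image, mem_image] at hd
    rcases hd with ⟨c, hc, rfl⟩ | ⟨p, hp, rfl⟩
    · rw [hFe, mem_filter] at hX hY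
      exact hG c hc _ hX.2 _ hY.2 (hXY.mono inter_subset_left inter_subset_left)
    · rw [hFo, mem_filter] at hX hY
      exact disjoint_left.mp hXY hX.2 hY.2
  · intro X hXV hXn
    have hi : (X ∩ L).card + (X \ L).card = n := by
      rw [card_inter_add_card_sdiff, hXn]
    have h1 := hcov (X ∩ L) inter_subset_right (by omega)
    set A : Finset ℕ := C.filter (fun c => X ∩ L ∈ G c) with hA
    have h2 : A.image (fun c => 2 * c) ∪
        ((X \ L) ×ˢ range q).image (fun p => 2 * Nat.pair p.1 p.2 + 1) ⊆
        C'.filter (fun c => X ∈ F c) := by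
      intro d hd
      rw [mem_union, mem_image, mem_image] at hd
      rw [mem_filter]
      rcases hd with ⟨c, hc, rfl⟩ | ⟨p, hp, rfl⟩
      · rw [hA, mem_filter] at hc
        refine ⟨mem_union_left _ (mem_image_of_mem _ hc.1), ?_⟩
        rw [hFe, mem_filter, mem_powersetCard]
        exact ⟨⟨hXV, hXn⟩, hc.2⟩
      · rw [mem_product, mem_sdiff] at hp
        refine ⟨mem_union_right _ (mem_image.2 ⟨p, mem_product.2
          ⟨mem_sdiff.2 ⟨hXV hp.1.1, hp.1.2⟩, hp.2⟩, rfl⟩), ?_⟩
        rw [hFo, mem_filter, mem_powersetCard]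
        exact ⟨⟨hXV, hXn⟩, hp.1.1⟩
    have h3 : Disjoint (A.image (fun c => 2 * c))
        (((X \ L) ×ˢ range q).image (fun p => 2 * Nat.pair p.1 p.2 + 1)) := by
      rw [disjoint_left]
      intro d hd hd'
      obtain ⟨c, -, rfl⟩ := mem_image.1 hd
      obtain ⟨p, -, hp⟩ := mem_image.1 hd'
      omega
    have h4 : (A.image (fun c => 2 * c)).card = A.card :=
      card_image_of_injective _ fun a b hab => by
        have hab' : 2 * a = 2 * b := hab
        omega
    have h5 : (((X \ L) ×ˢ range q).image (fun p => 2 * Nat.pair p.1 p.2 + 1)).card =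
        (X \ L).card * q := by
      rw [card_image_of_injective, card_product, card_range]
      intro a b hab
      have hab' : 2 * Nat.pair a.1 a.2 + 1 = 2 * Nat.pair b.1 b.2 + 1 := hab
      have h6 : Nat.pair a.1 a.2 = Nat.pair b.1 b.2 := by omega
      have h7 := Nat.pair_eq_pair.mp h6
      exact Prod.ext h7.1 h7.2
    have h6 := card_le_card h2
    rw [card_union_of_disjoint h3, h4, h5] at h6
    obtain ⟨r, rfl⟩ : ∃ r, q = r + 1 := ⟨q - 1, by omega⟩
    have h7 : (r + 1) * n = (r + 1) * (X ∩ L).card + (X \ L).card * (r + 1) := by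
      rw [← hi]
      ring
    have h8 : (r + 1 - 1) * n + n = (r + 1) * n := by
      rw [Nat.add_sub_cancel]
      ring
    omega

end Pool.Agent.Lib.MP_6805b2_co.FL
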