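import Pool.Agent.Lib.MP_6805b2_co.FL.Def

/-!
# Limit systems: adding a star at every point
-/

namespace Pool.Agent.Lib.MP_6805b2_co.FL

open Finset

/-- Colours `2 c` for `c ∈ C` with the old family, `2 x + 1` for `x ∈ L` with the star at `x`. -/
theorem up (n l q : ℕ) (h : Lim n l q) : Lim n l (q + 1) := by
  classical
  obtain ⟨L, C, G, hL, hC, hI, hD⟩ := h
  have hdis : Disjoint (C.image (fun c => 2 * c)) (L.image (fun x => 2 * x + 1)) := by
    rw [disjoint_left]
    intro d hd hd'
    obtain ⟨c, _, rfl⟩ := mem_image.1 hd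
    obtain ⟨x, _, hx⟩ := mem_image.1 hd'
    omega
  refine ⟨L, C.image (fun c => 2 * c) ∪ L.image (fun x => 2 * x + 1),
    fun d => if d % 2 = 0 then G (d / 2) else L.powerset.filter (fun Y => d / 2 ∈ Y), hL, ?_, ?_, ?_⟩
  · rw [card_union_of_disjoint hdis, card_image_of_injective _ (fun a b h => by simpa using h),
      card_image_of_injective _ (fun a b h => by simpa using h), hL]
    have e : (q + 1) * l = q * l + l := by ring
    rw [e]
    omega
  · intro d hd X hX Y hY
    rcases mem_union.1 hd with h1 | h1
    · obtain ⟨c, hc, rfl⟩ := mem_image.1 h1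
      have e1 : 2 * c % 2 = 0 := by omega
      have e2 : 2 * c / 2 = c := by omega
      simp only [e1, e2, if_true] at hX hY
      exact hI c hc X hX Y hY
    · obtain ⟨x, hx, rfl⟩ := mem_image.1 h1
      have e1 : ¬ (2 * x + 1) % 2 = 0 := by omega
      have e2 : (2 * x + 1) / 2 = x := by omega
      simp only [e1, e2, if_false, mem_filter] at hX hY
      rw [not_disjoint_iff]
      exact ⟨x, hX.2, hY.2⟩
  · intro Y hY hYn
    have h1 := hD Y hY hYn
    have h2 : ((C.filter (fun c => Y ∈ G c)).image (fun c => 2 * c)) ∪ (Y.image (fun x => 2 * x + 1)) ⊆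
        (C.image (fun c => 2 * c) ∪ L.image (fun x => 2 * x + 1)).filter
          (fun d => Y ∈ (if d % 2 = 0 then G (d / 2) else L.powerset.filter (fun Y => d / 2 ∈ Y))) := by
      intro d hd
      rcases mem_union.1 hd with h3 | h3
      · obtain ⟨c, hc, rfl⟩ := mem_image.1 h3
        obtain ⟨h4, h5⟩ := mem_filter.1 hc
        refine mem_filter.2 ⟨mem_union_left _ (mem_image.2 ⟨c, h4, rfl⟩), ?_⟩
        have e1 : 2 * c % 2 = 0 := by omega
        have e2 : 2 * c / 2 = c := by omega
        simp only [e1, e2, if_true]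
        exact h5
      · obtain ⟨x, hx, rfl⟩ := mem_image.1 h3
        refine mem_filter.2 ⟨mem_union_right _ (mem_image.2 ⟨x, hY hx, rfl⟩), ?_⟩
        have e1 : ¬ (2 * x + 1) % 2 = 0 := by omega
        have e2 : (2 * x + 1) / 2 = x := by omega
        simp only [e1, e2, if_false, mem_filter, mem_powerset]
        exact ⟨hY, hx⟩
    have h3 := card_le_card h2
    rw [card_union_of_disjoint (by
      rw [disjoint_left]
      intro d hd hd'
      obtain ⟨c, _, rfl⟩ := mem_image.1 hd
      obtain ⟨x, _, hx⟩ := mem_image.1 hd'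
      omega), card_image_of_injective _ (fun a b h => by simpa using h),
      card_image_of_injective _ (fun a b h => by simpa using h)] at h3
    have e : (q + 1) * Y.card = q * Y.card + Y.card := by ring
    rw [e]
    beta_reduce
    omega

end Pool.Agent.Lib.MP_6805b2_co.FL
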