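import Pool.Agent.Lib.MP_6805b2_co.FL.Ext
import Pool.Agent.Lib.MP_6805b2_co.FL.Up
import Pool.Agent.Lib.MP_6805b2_co.FL.Down
import Pool.Agent.Lib.MP_6805b2_co.FL.Out

/-!
# One pair decides all large `m`
-/

namespace Pool.Agent.Lib.MP_6805b2_co.FL

/-- The arithmetic of the bound `n ^ 4`. -/
theorem big (k l0 : ℕ) (hl0 : l0 = (k + 2) ^ 2 * (k + 1)) :
    l0 + l0 * (k + 2) + (k + 2) ≤ (k + 2) ^ 4 := by
  subst hl0
  ring_nf
  linarith [Nat.zero_le k, Nat.zero_le (k ^ 2), Nat.zero_le (k ^ 3), Nat.zero_le (k ^ 4)]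

theorem up_q (k l : ℕ) : ∀ d q, Lim (k + 2) l q → Lim (k + 2) l (q + d) := by
  intro d
  induction d with
  | zero => intro q h; exact h
  | succ d ih => intro q h; exact up _ _ _ (ih q h)

theorem down_q (k l : ℕ) : ∀ d q, k + 1 ≤ q → Lim (k + 2) l (q + d) → Lim (k + 2) l q := by
  intro d
  induction d with
  | zero => intro q _ h; exact h
  | succ d ih =>
    intro q hq h
    exact ih q hq (down (k + 2) l (q + d) (by omega) (by omega) h)

/-- If Stahl's conjecture fails for one pair with `m ≥ n ^ 4`, it fails for all pairs with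
`m' ≥ n ^ 2 (n - 1)` and `q' ≥ min q (n - 1)`. -/
theorem allm (k : ℕ) (hk : 2 ≤ k) (m q m' q' : ℕ) (hm : (k + 2) ^ 4 ≤ m) (hq : 1 ≤ q)
    (h : FR.Cex (k + 2) m q) (hm' : (k + 2) ^ 2 * (k + 1) ≤ m') (hq' : min q (k + 1) ≤ q') :
    FR.Cex (k + 2) m' q' := by
  have hL : Lim (k + 2) ((k + 2) ^ 2 * (k + 1)) q :=
    ext k _ m q hk rfl ((big k _ rfl).trans hm) hq h
  generalize (k + 2) ^ 2 * (k + 1) = l at hL hm'
  have hL1 : Lim (k + 2) l (min q (k + 1)) := by
    rcases Nat.le_total q (k + 1) with h4 | h4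
    · rwa [Nat.min_eq_left h4]
    · rw [Nat.min_eq_right h4]
      refine down_q k l (q - (k + 1)) (k + 1) le_rfl ?_
      rwa [Nat.add_sub_cancel' h4]
  have hL2 : Lim (k + 2) l q' := by
    have := up_q k l (q' - min q (k + 1)) (min q (k + 1)) hL1
    rwa [Nat.add_sub_cancel' hq'] at this
  exact out (k + 2) l q' m' (by omega) hm' hL2

end Pool.Agent.Lib.MP_6805b2_co.FL
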