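import Pool.Agent.Lib.MP_6805b2_co.FR.Core

/-!
# Intersecting families without a common point: the bound `n C(v - 2, n - 2)`

For `n = j + 3 ≥ 4` and `v ≥ n ^ 2 (n - 1)` (a weak form of the Hilton-Milner theorem).
-/

namespace Pool.Agent.Lib.MP_6805b2_co.FL

open Finset

/-- `P` and `Q` are cross-intersecting, `x` is in the members of `P` and `y` in those of `Q` only. -/
theorem crossP (V : Finset ℕ) (x y : ℕ) (hx : x ∈ V) (hy : y ∈ V) (hxy : x ≠ y) (j : ℕ)
    (P Q : Finset (Finset ℕ))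
    (hP : ∀ X ∈ P, X ⊆ V ∧ X.card = j + 3 ∧ x ∈ X ∧ y ∉ X)
    (hQ : ∀ T ∈ Q, T ⊆ V ∧ T.card = j + 3 ∧ y ∈ T ∧ x ∉ T)
    (hPQ : ∀ X ∈ P, ∀ T ∈ Q, ¬ Disjoint X T) (T₁ : Finset ℕ) (hT₁ : T₁ ∈ Q) (J : Finset ℕ)
    (hJ : J = (T₁.erase y).filter (fun z => ∀ T ∈ Q, z ∈ T)) :
    P.card ≤ J.card * (V.card - 3).choose (j + 1) +
      (j + 2 - J.card) * ((j + 2) * (V.card - 4).choose j) := by
  classical
  have hT := hQ T₁ hT₁
  have hJs : J ⊆ T₁.erase y := by rw [hJ]; exact filter_subset _ _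
  have hW : (V.erase y).card = V.card - 1 := card_erase_of_mem hy
  have hxW : x ∈ V.erase y := mem_erase.2 ⟨hxy, hx⟩
  have hU : ∀ z, ∃ U : Finset ℕ, z ∈ (T₁.erase y) \ J → U ∈ Q ∧ z ∉ U := by
    intro z
    by_cases hz : z ∈ (T₁.erase y) \ J
    · obtain ⟨h1, h2⟩ := mem_sdiff.1 hz
      have h3 : ¬ ∀ T ∈ Q, z ∈ T := fun h => h2 (by rw [hJ]; exact mem_filter.2 ⟨h1, h⟩)
      push Not at h3
      obtain ⟨U, hU, hzU⟩ := h3
      exact ⟨U, fun _ => ⟨hU, hzU⟩⟩
    · exact ⟨∅, fun h => absurd h hz⟩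
  choose U hU using hU
  have hsub : P ⊆ (J.biUnion fun z => ((V.erase y).powersetCard (j + 3)).filter
      (fun X => x ∈ X ∧ z ∈ X)) ∪ ((T₁.erase y) \ J).biUnion fun z => ((U z).erase y).biUnion fun w =>
        ((V.erase y).powersetCard (j + 3)).filter (fun X => x ∈ X ∧ z ∈ X ∧ w ∈ X) := by
    intro X hX
    obtain ⟨h1, h2, h3, h4⟩ := hP X hX
    have hXW : X ∈ (V.erase y).powersetCard (j + 3) :=
      mem_powersetCard.2 ⟨fun z hz => mem_erase.2 ⟨fun h => h4 (h ▸ hz), h1 hz⟩, h2⟩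
    obtain ⟨z, hz1, hz2⟩ := not_disjoint_iff.1 (hPQ X hX T₁ hT₁)
    have hzy : z ≠ y := fun h => h4 (h ▸ hz1)
    by_cases hzJ : z ∈ J
    · exact mem_union_left _ (mem_biUnion.2 ⟨z, hzJ, mem_filter.2 ⟨hXW, h3, hz1⟩⟩)
    · have hz3 : z ∈ (T₁.erase y) \ J := mem_sdiff.2 ⟨mem_erase.2 ⟨hzy, hz2⟩, hzJ⟩
      obtain ⟨w, hw1, hw2⟩ := not_disjoint_iff.1 (hPQ X hX (U z) (hU z hz3).1)
      refine mem_union_right _ (mem_biUnion.2 ⟨z, hz3, mem_biUnion.2 ⟨w, ?_, ?_⟩⟩)
      · exact mem_erase.2 ⟨fun h => h4 (h ▸ hw1), hw2⟩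
      · exact mem_filter.2 ⟨hXW, h3, hz1, hw1⟩
  refine (card_le_card hsub).trans ((card_union_le _ _).trans (Nat.add_le_add ?_ ?_))
  · refine card_biUnion_le.trans ((sum_le_card_nsmul J _ ((V.card - 3).choose (j + 1))
      fun z hz => ?_).trans (le_of_eq (smul_eq_mul _ _)))
    obtain ⟨hzy, hzT⟩ := mem_erase.1 (hJs hz)
    have h := FR.two (V.erase y) x z hxW (fun h => hT.2.2.2 (h ▸ hzT))
      (mem_erase.2 ⟨hzy, hT.1 hzT⟩) (j + 1)
    rw [hW] at h
    have e : V.card - 1 - 2 = V.card - 3 := by omega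
    rw [e] at h
    exact h
  · have hc : ((T₁.erase y) \ J).card = j + 2 - J.card := by
      rw [card_sdiff_of_subset hJs, card_erase_of_mem hT.2.2.1, hT.2.1]
      rfl
    refine card_biUnion_le.trans ((sum_le_card_nsmul _ _ ((j + 2) * (V.card - 4).choose j)
      fun z hz => ?_).trans (le_of_eq (by rw [smul_eq_mul, hc])))
    obtain ⟨hz1, hz2⟩ := mem_sdiff.1 hz
    obtain ⟨hzy, hzT⟩ := mem_erase.1 hz1
    have hxz : x ≠ z := fun h => hT.2.2.2 (h ▸ hzT)
    obtain ⟨g1, g2⟩ := hU z hz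
    have g3 := hQ (U z) g1
    have hc2 : ((U z).erase y).card = j + 2 := by
      rw [card_erase_of_mem g3.2.2.1, g3.2.1]
      rfl
    refine card_biUnion_le.trans ((sum_le_card_nsmul _ _ ((V.card - 4).choose j)
      fun w hw => ?_).trans (le_of_eq (by rw [smul_eq_mul, hc2])))
    obtain ⟨hwy, hwU⟩ := mem_erase.1 hw
    have h := FR.three (V.erase y) x z w hxW (mem_erase.2 ⟨hzy, hT.1 hzT⟩)
      (mem_erase.2 ⟨hwy, g3.1 hwU⟩) hxz (fun h => g3.2.2.2 (h ▸ hwU)) (fun h => g2 (h ▸ hwU)) j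
    rw [hW] at h
    have e : V.card - 1 - 3 = V.card - 4 := by omega
    rw [e] at h
    exact h

/-- Arithmetic of the binomial coefficients. -/
theorem arith (v j a b c : ℕ) (hj : 1 ≤ j) (hv : (j + 3) ^ 2 * (j + 2) ≤ v)
    (ha : a = (v - 3).choose (j + 1)) (hb : b = (v - 3).choose j) (hc : c = (v - 4).choose j) :
    (j + 2) * ((j + 2) * c) ≤ a ∧ v ≤ (j + 2) * b ∧ (v - 2).choose (j + 1) = a + b ∧ 1 ≤ b := by
  have h1 : (j + 3) ^ 2 * (j + 2) = (j + 2) ^ 2 * (j + 1) + (3 * j ^ 2 + 13 * j + 14) := by ring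
  have h4 : 16 * 3 ≤ (j + 3) ^ 2 * (j + 2) := by
    have e1 : 4 ^ 2 ≤ (j + 3) ^ 2 := Nat.pow_le_pow_left (by omega) 2
    exact Nat.mul_le_mul (by omega) (by omega)
  obtain ⟨p, rfl⟩ : ∃ p, v = p + 4 := ⟨v - 4, by omega⟩
  have e3 : p + 4 - 3 = p + 1 := rfl
  have e4 : p + 4 - 4 = p := rfl
  have e2 : p + 4 - 2 = p + 1 + 1 := rfl
  rw [e3] at ha hb
  rw [e4] at hc
  rw [e2]
  have hjp : j ≤ p := by
    have : j ≤ (j + 2) ^ 2 * (j + 1) := by nlinarith
    omega
  have hpa : (p + 1) * c = a * (j + 1) := by rw [ha, hc]; exact Nat.add_one_mul_choose_eq p j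
  have hb1 : p + 1 ≤ b := by
    rw [hb]
    have h5 : (p + 1).choose 1 ≤ (p + 1).choose j := by
      rcases Nat.lt_or_ge 1 j with h | h
      · rw [Nat.choose_one_right]
        have h6 : p + 1 = (p + 1 - j) + j := by omega
        have h7 : j < p + 1 := by omega
        -- `C(p+1, j) ≥ p + 1` for `1 ≤ j ≤ p`
        have : ∀ n i : ℕ, 1 ≤ i → i < n → n ≤ n.choose i := by
          intro n
          induction n with
          | zero => intro i _ h; omega
          | succ n ih =>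
            intro i hi hin
            obtain ⟨i, rfl⟩ : ∃ i', i = i' + 1 := ⟨i - 1, by omega⟩
            rw [Nat.choose_succ_succ']
            rcases Nat.lt_or_ge (i + 1) n with h8 | h8
            · have h9 := ih (i + 1) (by omega) h8
              have h10 : 0 < n.choose i := Nat.choose_pos (by omega)
              omega
            · have h11 : i + 1 = n := by omega
              subst h11
              have h12 : (i + 1).choose i = i + 1 := by
                rw [Nat.choose_succ_self_right]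
              rw [Nat.choose_self, h12]
        exact this (p + 1) j (by omega) h7
      · have : j = 1 := by omega
        rw [this]
    rwa [Nat.choose_one_right] at h5
  refine ⟨?_, ?_, ?_, by omega⟩
  · have hp0 : 0 < p + 1 := by omega
    refine Nat.le_of_mul_le_mul_right ?_ hp0
    have h6 : (j + 2) ^ 2 * (j + 1) ≤ p + 1 := by omega
    calc (j + 2) * ((j + 2) * c) * (p + 1) = (j + 2) ^ 2 * ((p + 1) * c) := by ring
      _ = a * ((j + 2) ^ 2 * (j + 1)) := by rw [hpa]; ring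
      _ ≤ a * (p + 1) := Nat.mul_le_mul_left _ h6
  · have h7 : 3 * b ≤ (j + 2) * b := Nat.mul_le_mul_right _ (by omega)
    omega
  · rw [Nat.choose_succ_succ', ← ha, ← hb]
    omega

/-- If the members of `Q` have a common point besides `y`. -/
theorem crossbd (V : Finset ℕ) (x y : ℕ) (hx : x ∈ V) (hy : y ∈ V) (hxy : x ≠ y) (j : ℕ)
    (hj : 1 ≤ j) (hv : (j + 3) ^ 2 * (j + 2) ≤ V.card) (P Q : Finset (Finset ℕ))
    (hP : ∀ X ∈ P, X ⊆ V ∧ X.card = j + 3 ∧ x ∈ X ∧ y ∉ X)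
    (hQ : ∀ T ∈ Q, T ⊆ V ∧ T.card = j + 3 ∧ y ∈ T ∧ x ∉ T)
    (hPQ : ∀ X ∈ P, ∀ T ∈ Q, ¬ Disjoint X T) (hne : Q.Nonempty)
    (z : ℕ) (hzy : z ≠ y) (hz : ∀ T ∈ Q, z ∈ T) :
    P.card + Q.card ≤ (j + 2) * (V.card - 2).choose (j + 1) := by
  classical
  obtain ⟨T₁, hT₁⟩ := hne
  have hT := hQ T₁ hT₁
  obtain ⟨J, hJ⟩ : ∃ J, J = (T₁.erase y).filter (fun z => ∀ T ∈ Q, z ∈ T) := ⟨_, rfl⟩
  have hcr := crossP V x y hx hy hxy j P Q hP hQ hPQ T₁ hT₁ J hJ
  have hJs : J ⊆ T₁.erase y := by rw [hJ]; exact filter_subset _ _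
  have hJQ : ∀ w ∈ J, ∀ T ∈ Q, w ∈ T := by
    intro w hw
    rw [hJ] at hw
    exact (mem_filter.1 hw).2
  have hT2 : (T₁.erase y).card = j + 2 := by
    rw [card_erase_of_mem hT.2.2.1, hT.2.1]
    rfl
  have hJc : J.card ≤ j + 2 := by rw [← hT2]; exact card_le_card hJs
  have hzJ : z ∈ J := by rw [hJ]; exact mem_filter.2 ⟨mem_erase.2 ⟨hzy, hz T₁ hT₁⟩, hz⟩
  have hJ1 : 1 ≤ J.card := card_pos.2 ⟨z, hzJ⟩
  obtain ⟨a, ha⟩ : ∃ a, a = (V.card - 3).choose (j + 1) := ⟨_, rfl⟩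
  obtain ⟨b, hb⟩ : ∃ b, b = (V.card - 3).choose j := ⟨_, rfl⟩
  obtain ⟨c, hc⟩ : ∃ c, c = (V.card - 4).choose j := ⟨_, rfl⟩
  obtain ⟨q1, q2, q3, q4⟩ := arith V.card j a b c hj hv ha hb hc
  rw [q3]
  rw [← ha, ← hc] at hcr
  -- `Q` is small
  have hQa : Q.card ≤ a := by
    have h1 : Q ⊆ ((V.erase x).powersetCard (j + 3)).filter (fun X => y ∈ X ∧ z ∈ X) := by
      intro T hTQ
      obtain ⟨h1, h2, h3, h4⟩ := hQ T hTQ
      exact mem_filter.2 ⟨mem_powersetCard.2 ⟨fun w hw => mem_erase.2 ⟨fun h => h4 (h ▸ hw), h1 hw⟩,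
        h2⟩, h3, hz T hTQ⟩
    have h2 := FR.two (V.erase x) y z (mem_erase.2 ⟨hxy.symm, hy⟩) hzy.symm
      (mem_erase.2 ⟨fun h => hT.2.2.2 (h ▸ hz T₁ hT₁), hT.1 (hz T₁ hT₁)⟩) (j + 1)
    rw [card_erase_of_mem hx] at h2
    have e : V.card - 1 - 2 = V.card - 3 := by omega
    rw [e, ← ha] at h2
    exact (card_le_card h1).trans h2
  have hd : (j + 2) * (a + b) = (j + 2) * a + (j + 2) * b := by ring
  rcases Nat.lt_or_ge J.card (j + 1) with h | h
  · -- at most `j` common points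
    have h1 : (j + 2 - J.card) * ((j + 2) * c) ≤ (j + 2) * ((j + 2) * c) :=
      Nat.mul_le_mul_right _ (by omega)
    have h2 : J.card * a ≤ j * a := Nat.mul_le_mul_right _ (by omega)
    have h3 : (j + 2) * a = j * a + a + a := by ring
    omega
  · rcases Nat.lt_or_ge J.card (j + 2) with h' | h'
    · -- `j + 1` common points
      have hJc' : J.card = j + 1 := by omega
      rw [hJc'] at hcr
      have h1 : (j + 2 - (j + 1)) * ((j + 2) * c) = (j + 2) * c := by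
        have : j + 2 - (j + 1) = 1 := by omega
        rw [this, one_mul]
      have h2 : (j + 2) * c ≤ (j + 2) * ((j + 2) * c) :=
        Nat.mul_le_mul_left _ (Nat.le_mul_of_pos_left _ (by omega))
      have h3 : (j + 2) * a = (j + 1) * a + a := by ring
      have h4 : Q.card ≤ V.card := by
        have hyJ : y ∉ J := fun hh => (mem_erase.1 (hJs hh)).1 rfl
        have h5 : Q ⊆ V.image (fun w => insert w (insert y J)) := by
          intro T hTQ
          obtain ⟨g1, g2, g3, g4⟩ := hQ T hTQ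
          have g5 : insert y J ⊆ T := insert_subset g3 fun w hw => hJQ w hw T hTQ
          have g6 : (insert y J).card = j + 2 := by rw [card_insert_of_notMem hyJ, hJc']
          have g7 : (T \ insert y J).card = 1 := by
            rw [card_sdiff_of_subset g5, g2, g6]
            omega
          obtain ⟨w, hw⟩ := card_eq_one.1 g7
          have hwT : w ∈ T \ insert y J := by rw [hw]; exact mem_singleton_self w
          refine mem_image.2 ⟨w, g1 (mem_sdiff.1 hwT).1, ?_⟩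
          refine eq_of_subset_of_card_le (insert_subset (mem_sdiff.1 hwT).1 g5) ?_
          rw [card_insert_of_notMem (mem_sdiff.1 hwT).2, g6, g2]
        exact (card_le_card h5).trans card_image_le
      omega
    · -- `Q` has one member
      have hJc' : J.card = j + 2 := by omega
      have hJe : J = T₁.erase y := eq_of_subset_of_card_le hJs (by rw [hT2, hJc'])
      have h4 : Q.card ≤ 1 := by
        rw [card_le_one]
        have key : ∀ T ∈ Q, T = T₁ := by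
          intro T hTQ
          obtain ⟨g1, g2, g3, g4⟩ := hQ T hTQ
          symm
          refine eq_of_subset_of_card_le (fun w hw => ?_) (by rw [g2, hT.2.1])
          by_cases hwy : w = y
          · rw [hwy]; exact g3
          · exact hJQ w (by rw [hJe]; exact mem_erase.2 ⟨hwy, hw⟩) T hTQ
        intro T hT' T' hT''
        rw [key T hT', key T' hT'']
      rw [hJc', Nat.sub_self, zero_mul] at hcr
      have h5 : 1 * 1 ≤ (j + 2) * b := Nat.mul_le_mul (by omega) q4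
      omega

/-- The bound for intersecting families without a common point. -/
theorem hm (V : Finset ℕ) (j : ℕ) (hj : 1 ≤ j) (G : Finset (Finset ℕ))
    (hG : ∀ X ∈ G, X ⊆ V ∧ X.card = j + 3) (hv : (j + 3) ^ 2 * (j + 2) ≤ V.card)
    (hI : ∀ X ∈ G, ∀ Y ∈ G, ¬ Disjoint X Y) (h : ∀ x ∈ V, ∃ X ∈ G, x ∉ X) :
    G.card ≤ (j + 3) * (V.card - 2).choose (j + 1) := by
  classical
  have hVn : V.Nonempty := card_pos.1 (lt_of_lt_of_le (by positivity) hv)
  by_cases hc : ∃ x ∈ V, ∃ y ∈ V, ∀ X ∈ G, x ∈ X ∨ y ∈ X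
  · obtain ⟨x, hx, y, hy, hcov⟩ := hc
    have hxy : x ≠ y := by
      rintro rfl
      obtain ⟨X, hX, hxX⟩ := h x hx
      rcases hcov X hX with h1 | h1 <;> exact hxX h1
    have hb0 := FR.two V x y hx hxy hy (j + 1)
    have h0 : (G.filter (fun X => x ∈ X ∧ y ∈ X)).card ≤ (V.card - 2).choose (j + 1) := by
      refine le_trans (card_le_card fun X hX => ?_) hb0
      obtain ⟨h1, h2⟩ := mem_filter.1 hX
      exact mem_filter.2 ⟨mem_powersetCard.2 (hG X h1), h2⟩
    set P := G.filter (fun X => x ∈ X ∧ y ∉ X) with hPd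
    set Q := G.filter (fun X => y ∈ X ∧ x ∉ X) with hQd
    have hP : ∀ X ∈ P, X ⊆ V ∧ X.card = j + 3 ∧ x ∈ X ∧ y ∉ X := fun X hX =>
      ⟨(hG X (mem_filter.1 hX).1).1, (hG X (mem_filter.1 hX).1).2, (mem_filter.1 hX).2⟩
    have hQ : ∀ X ∈ Q, X ⊆ V ∧ X.card = j + 3 ∧ y ∈ X ∧ x ∉ X := fun X hX =>
      ⟨(hG X (mem_filter.1 hX).1).1, (hG X (mem_filter.1 hX).1).2, (mem_filter.1 hX).2⟩
    have hPQ : ∀ X ∈ P, ∀ T ∈ Q, ¬ Disjoint X T := fun X hX T hT =>
      hI X (mem_filter.1 hX).1 T (mem_filter.1 hT).1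
    have hQP : ∀ X ∈ Q, ∀ T ∈ P, ¬ Disjoint X T := fun X hX T hT =>
      hI X (mem_filter.1 hX).1 T (mem_filter.1 hT).1
    have hQn : Q.Nonempty := by
      obtain ⟨X, hX, hxX⟩ := h x hx
      exact ⟨X, mem_filter.2 ⟨hX, (hcov X hX).resolve_left hxX, hxX⟩⟩
    have hPn : P.Nonempty := by
      obtain ⟨X, hX, hyX⟩ := h y hy
      exact ⟨X, mem_filter.2 ⟨hX, (hcov X hX).resolve_right hyX, hyX⟩⟩
    have hsub : G ⊆ G.filter (fun X => x ∈ X ∧ y ∈ X) ∪ (P ∪ Q) := by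
      intro X hX
      by_cases h1 : x ∈ X
      · by_cases h2 : y ∈ X
        · exact mem_union_left _ (mem_filter.2 ⟨hX, h1, h2⟩)
        · exact mem_union_right _ (mem_union_left _ (mem_filter.2 ⟨hX, h1, h2⟩))
      · exact mem_union_right _ (mem_union_right _
          (mem_filter.2 ⟨hX, (hcov X hX).resolve_left h1, h1⟩))
    have hmain : P.card + Q.card ≤ (j + 2) * (V.card - 2).choose (j + 1) := by
      by_cases c1 : ∃ z, z ≠ y ∧ ∀ T ∈ Q, z ∈ T
      · obtain ⟨z, hzy, hz⟩ := c1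
        exact crossbd V x y hx hy hxy j hj hv P Q hP hQ hPQ hQn z hzy hz
      by_cases c2 : ∃ z, z ≠ x ∧ ∀ T ∈ P, z ∈ T
      · obtain ⟨z, hzx, hz⟩ := c2
        have := crossbd V y x hy hx hxy.symm j hj hv Q P hQ hP hQP hPn z hzx hz
        omega
      push Not at c1 c2
      obtain ⟨T₁, hT₁⟩ := hQn
      obtain ⟨T₂, hT₂⟩ := hPn
      obtain ⟨a, ha⟩ : ∃ a, a = (V.card - 3).choose (j + 1) := ⟨_, rfl⟩
      obtain ⟨b, hb⟩ : ∃ b, b = (V.card - 3).choose j := ⟨_, rfl⟩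
      obtain ⟨c, hc⟩ : ∃ c, c = (V.card - 4).choose j := ⟨_, rfl⟩
      obtain ⟨q1, q2, q3, q4⟩ := arith V.card j a b c hj hv ha hb hc
      have e1 : (T₁.erase y).filter (fun z => ∀ T ∈ Q, z ∈ T) = ∅ := by
        rw [filter_eq_empty_iff]
        intro z hz hall
        obtain ⟨T, hT, hzT⟩ := c1 z (mem_erase.1 hz).1
        exact hzT (hall T hT)
      have e2 : (T₂.erase x).filter (fun z => ∀ T ∈ P, z ∈ T) = ∅ := by
        rw [filter_eq_empty_iff]
        intro z hz hall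
        obtain ⟨T, hT, hzT⟩ := c2 z (mem_erase.1 hz).1
        exact hzT (hall T hT)
      have h1 := crossP V x y hx hy hxy j P Q hP hQ hPQ T₁ hT₁ ∅ e1.symm
      have h2 := crossP V y x hy hx hxy.symm j Q P hQ hP hQP T₂ hT₂ ∅ e2.symm
      rw [card_empty, zero_mul, Nat.sub_zero, zero_add, ← hc] at h1 h2
      rw [q3]
      have h3 : (j + 2) * (a + b) = j * a + 2 * a + (j + 2) * b := by ring
      omega
    have h3 := (card_le_card hsub).trans ((card_union_le _ _).trans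
      (Nat.add_le_add_left (card_union_le _ _) _))
    have h4 : (j + 3) * (V.card - 2).choose (j + 1) =
        (V.card - 2).choose (j + 1) + (j + 2) * (V.card - 2).choose (j + 1) := by ring
    omega
  · push Not at hc
    refine (FR.non3 V j G hG hVn hI hc).trans ?_
    have h1 : (j + 3) ^ 2 * (j + 2) = (j + 3) ^ 2 * (j + 1) + (j + 3) ^ 2 := by ring
    have h2 : 9 ≤ (j + 3) ^ 2 := by nlinarith
    obtain ⟨p, hp⟩ : ∃ p, V.card = p + 3 := ⟨V.card - 3, by omega⟩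
    rw [hp] at hv ⊢
    have e1 : (p + 1) * p.choose j = (p + 1).choose (j + 1) * (j + 1) := Nat.add_one_mul_choose_eq p j
    simp only [Nat.add_sub_cancel, show p + 3 - 2 = p + 1 from rfl]
    have hp0 : 0 < p + 1 := by omega
    refine Nat.le_of_mul_le_mul_right ?_ hp0
    have e2 : (j + 3) ^ 2 * (j + 1) ≤ p + 1 := by omega
    calc (j + 3) * ((j + 3) * ((j + 3) * p.choose j)) * (p + 1)
        = (j + 3) ^ 3 * ((p + 1) * p.choose j) := by ring
      _ = (j + 3) * (p + 1).choose (j + 1) * ((j + 3) ^ 2 * (j + 1)) := by rw [e1]; ring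
      _ ≤ (j + 3) * (p + 1).choose (j + 1) * (p + 1) := Nat.mul_le_mul_left _ e2

end Pool.Agent.Lib.MP_6805b2_co.FL
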