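import Pool.Agent.Lib.MP_6805b2_co.FR.Red

/-!
# The step in `q` for large `m`
-/

namespace Pool.Agent.Lib.MP_6805b2_co.FL

open Finset

private theorem ar1 (k m : ℕ) (hm : k + 2 ≤ m) (K τ β : ℕ)
    (h : K * m.choose (k + 2) ≤ τ * (m - 1).choose (k + 1) +
      β * (2 * (k + 2) * (m - 2).choose k)) :
    K * (m * (m - 1)) ≤ (k + 2) * τ * (m - 1) + 2 * (k + 2) ^ 2 * (k + 1) * β := by
  obtain ⟨p, rfl⟩ : ∃ p, m = p + 2 := ⟨m - 2, by omega⟩
  have e1 : (p + 1) * p.choose k = (p + 1).choose (k + 1) * (k + 1) := Nat.add_one_mul_choose_eq p k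
  have e2 : (p + 2) * (p + 1).choose (k + 1) = (p + 2).choose (k + 2) * (k + 2) :=
    Nat.add_one_mul_choose_eq (p + 1) (k + 1)
  have ht : 0 < p.choose k := Nat.choose_pos (by omega)
  simp only [Nat.add_sub_cancel, show p + 2 - 1 = p + 1 from rfl] at h ⊢
  refine Nat.le_of_mul_le_mul_right ?_ ht
  have h1 := Nat.mul_le_mul_right ((k + 2) * (k + 1)) h
  calc K * ((p + 2) * (p + 1)) * p.choose k
      = K * (p + 2) * ((p + 1) * p.choose k) := by ring
    _ = K * (k + 1) * ((p + 2) * (p + 1).choose (k + 1)) := by rw [e1]; ring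
    _ = K * (p + 2).choose (k + 2) * ((k + 2) * (k + 1)) := by rw [e2]; ring
    _ ≤ _ := h1
    _ = (k + 2) * τ * ((p + 1).choose (k + 1) * (k + 1)) +
        2 * (k + 2) ^ 2 * (k + 1) * β * p.choose k := by ring
    _ = ((k + 2) * τ * (p + 1) + 2 * (k + 2) ^ 2 * (k + 1) * β) * p.choose k := by rw [← e1]; ring

private theorem ar2 (k m : ℕ) (hm : k + 2 ≤ m) (K τ β : ℕ)
    (h : K * (m - 1).choose (k + 1) ≤ τ * (m - 2).choose k + β * ((k + 2) * (m - 2).choose k)) :
    K * (m - 1) ≤ (k + 1) * (τ + (k + 2) * β) := by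
  obtain ⟨p, rfl⟩ : ∃ p, m = p + 2 := ⟨m - 2, by omega⟩
  have e1 : (p + 1) * p.choose k = (p + 1).choose (k + 1) * (k + 1) := Nat.add_one_mul_choose_eq p k
  have ht : 0 < p.choose k := Nat.choose_pos (by omega)
  simp only [Nat.add_sub_cancel, show p + 2 - 1 = p + 1 from rfl] at h ⊢
  refine Nat.le_of_mul_le_mul_right ?_ ht
  have h1 := Nat.mul_le_mul_right (k + 1) h
  calc K * (p + 1) * p.choose k = K * (p + 1).choose (k + 1) * (k + 1) := by
        rw [mul_assoc, e1]; ring
    _ ≤ _ := h1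
    _ = (k + 1) * (τ + (k + 2) * β) * p.choose k := by ring

/-- Proof: copy the second half of the proof of `FR.tri` (FR/Step.lean): with the same `T`, `B`, `A`, the first
inequality and the third (`ar1`, private there: copy it) do not use that the `A x` are small; if all `A x` are
nonempty, remove one class at every point (`FR.removeC`), otherwise `ar2` gives the last inequality, and
`FR.bound_q` gives `q ≤ 4 (k + 2) ^ 2`. -/
theorem qstep (k m q : ℕ) (hk : 1 ≤ k) (hm3 : (k + 2) ^ 3 < 2 * m) (hm : 4 * (k + 2) ^ 2 < m)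
    (hq : 4 * (k + 2) ^ 2 < q) (h : FR.Cex (k + 2) m q) : FR.Cex (k + 2) m (q - 1) := by
  classical
  obtain ⟨V, C, F, hV, hC, hS⟩ := h
  obtain ⟨ctr, hctr⟩ := FR.exists_ctr V F
  have e5 : 4 * (k + 2) * (k + 1) ≤ 4 * (k + 2) ^ 2 := by nlinarith
  have e2 : 2 * (k + 2) ≤ 4 * (k + 2) ^ 2 := by nlinarith
  have e4 : 16 ≤ 4 * (k + 2) ^ 2 := by nlinarith
  set T := C.filter (fun c => ∃ x ∈ V, ∀ X ∈ F c, x ∈ X) with hT
  set B := C.filter (fun c => ¬ ∃ x ∈ V, ∀ X ∈ F c, x ∈ X) with hB
  have hTB : T.card + B.card = C.card := card_filter_add_card_filter_not _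
  have hTC : ∀ c ∈ T, c ∈ C ∧ ctr c ∈ V ∧ ∀ X ∈ F c, ctr c ∈ X := by
    intro c hc
    obtain ⟨h1, h2⟩ := mem_filter.1 hc
    exact ⟨h1, hctr c h2⟩
  have hBC : ∀ c ∈ B, c ∈ C ∧ ∀ x ∈ V, ∃ X ∈ F c, x ∉ X := by
    intro c hc
    obtain ⟨h1, h2⟩ := mem_filter.1 hc
    refine ⟨h1, fun x hx => ?_⟩
    by_contra hcon
    push Not at hcon
    exact h2 ⟨x, hx, hcon⟩
  let A : ℕ → Finset ℕ := fun x => T.filter (fun c => ctr c = x)
  have hAC : ∀ x, A x ⊆ C := fun x c hc => (hTC c (mem_filter.1 hc).1).1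
  have hAx : ∀ x, ∀ c ∈ A x, ∀ X ∈ F c, x ∈ X := by
    intro x c hc X hX
    obtain ⟨h1, h2⟩ := mem_filter.1 hc
    rw [← h2]
    exact (hTC c h1).2.2 X hX
  by_cases hne : ∀ x ∈ V, (A x).Nonempty
  · have h1 : ∀ x, ∃ c, x ∈ V → c ∈ A x := by
      intro x
      by_cases hx : x ∈ V
      · obtain ⟨c, hc⟩ := hne x hx
        exact ⟨c, fun _ => hc⟩
      · exact ⟨0, fun h => absurd h hx⟩
    choose g hg using h1
    have h2 := FR.removeC hS g (fun x hx => hAx x (g x) (hg x hx))
    refine ⟨V, C \ V.image g, F, hV, ?_, ?_⟩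
    · have h3 : V.image g ⊆ C := by
        intro c hc
        obtain ⟨x, hx, rfl⟩ := mem_image.1 hc
        exact hAC x (hg x hx)
      have h4 : (V.image g).card = m := by
        rw [← hV]
        refine card_image_of_injOn ?_
        intro x hx y hy hxy
        have e1 := (mem_filter.1 (hg x hx)).2
        have e2 := (mem_filter.1 (hg y hy)).2
        rw [← e1, ← e2]
        exact congrArg ctr hxy
      rw [card_sdiff_of_subset h3, h4]
      have h5 := card_le_card h3
      rw [h4] at h5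
      obtain ⟨p, rfl⟩ : ∃ p, q = p + 1 := ⟨q - 1, by omega⟩
      rw [Nat.add_sub_cancel]
      have e : (p + 1) * m = p * m + m := by ring
      rw [e] at hC
      omega
    · have h3 : (q - 1) * (k + 2) + 1 - (k + 2) = (q - 1 - 1) * (k + 2) + 1 := by
        obtain ⟨p, rfl⟩ : ∃ p, q = p + 2 := ⟨q - 2, by omega⟩
        have e1 : p + 2 - 1 = p + 1 := rfl
        have e2 : p + 1 - 1 = p := rfl
        rw [e1, e2, add_mul, one_mul]
        omega
      rw [← h3]
      exact h2
  · exfalso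
    push Not at hne
    obtain ⟨x, hx, hxe⟩ := hne
    have i1 : ((q - 1) * (k + 2) + 1) * (m * (m - 1)) ≤
        (k + 2) * T.card * (m - 1) + 2 * (k + 2) ^ 2 * (k + 1) * B.card := by
      refine ar1 k m (by omega) _ _ _ ?_
      have h1 := FR.dc hS (V.powersetCard (k + 2)) (Subset.refl _)
      rw [card_powersetCard, hV] at h1
      refine h1.trans ?_
      have h2 : ∑ c ∈ C, ((F c).filter (fun X => X ∈ V.powersetCard (k + 2))).card ≤
          ∑ c ∈ C, (F c).card := sum_le_sum fun c _ => card_filter_le _ _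
      refine h2.trans ?_
      rw [← sum_filter_add_sum_filter_not C (fun c => ∃ x ∈ V, ∀ X ∈ F c, x ∈ X)]
      refine Nat.add_le_add ?_ ?_
      · refine (sum_le_card_nsmul T _ ((m - 1).choose (k + 1)) fun c hc => ?_).trans
          (le_of_eq (smul_eq_mul _ _))
        rw [← hV]
        exact FR.star V k (F c) (hS.sub c (hTC c hc).1) (ctr c) (hTC c hc).2.1 (hTC c hc).2.2
      · refine (sum_le_card_nsmul B _ (2 * (k + 2) * (m - 2).choose k)
          fun c hc => ?_).trans (le_of_eq (smul_eq_mul _ _))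
        obtain ⟨j, rfl⟩ : ∃ j, k = j + 1 := ⟨k - 1, by omega⟩
        rw [← hV] at hm3 ⊢
        exact FR.non V j (F c) (hS.sub c (hBC c hc).1) hm3 (hS.int c (hBC c hc).1) (hBC c hc).2
    have i2 : ((q - 1) * (k + 2) + 1) * (m - 1) ≤
        (k + 1) * (T.card + (k + 2) * B.card) := by
      refine ar2 k m (by omega) _ _ _ ?_
      have h1 := FR.dc hS ((V.powersetCard (k + 2)).filter (fun X => x ∈ X)) (filter_subset _ _)
      rw [FR.one V x hx (k + 1), hV] at h1
      refine h1.trans ?_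
      have h2 : ∑ c ∈ C, ((F c).filter
          (fun X => X ∈ (V.powersetCard (k + 2)).filter (fun X => x ∈ X))).card ≤
          ∑ c ∈ C, ((F c).filter (fun X => x ∈ X)).card := by
        refine sum_le_sum fun c _ => card_le_card fun X hX => ?_
        obtain ⟨h3, h4⟩ := mem_filter.1 hX
        exact mem_filter.2 ⟨h3, (mem_filter.1 h4).2⟩
      refine h2.trans ?_
      rw [← sum_filter_add_sum_filter_not C (fun c => ∃ x ∈ V, ∀ X ∈ F c, x ∈ X)]
      refine Nat.add_le_add ?_ ?_
      · refine (sum_le_card_nsmul T _ ((m - 2).choose k) fun c hc => ?_).trans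
          (le_of_eq (smul_eq_mul _ _))
        rw [← hV]
        refine FR.star_at V k (F c) (hS.sub c (hTC c hc).1) x (ctr c) hx ?_ (hTC c hc).2.1
          (hTC c hc).2.2
        intro hxc
        have : c ∈ A x := mem_filter.2 ⟨hc, hxc.symm⟩
        rw [hxe] at this
        exact absurd this (notMem_empty _)
      · refine (sum_le_card_nsmul B _ ((k + 2) * (m - 2).choose k)
          fun c hc => ?_).trans (le_of_eq (smul_eq_mul _ _))
        rw [← hV]
        exact FR.non_at V k (F c) (hS.sub c (hBC c hc).1) (hS.int c (hBC c hc).1) x hx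
          ((hBC c hc).2 x hx)
    have := FR.bound_q k m q T.card B.card (by omega) (by omega) (by omega)
      (by rw [hTB]; exact hC) i1 i2
    omega

end Pool.Agent.Lib.MP_6805b2_co.FL
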